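import Mathlib
import Pool.Agent.H359R2.Tau

set_option autoImplicit false

/-! The number of the divisors of the values of a linear function, on average. -/

namespace Pool.Agent.U365.TAU

open Finset H359R2

/-- a small divisor with many divisors -/
theorem small_divisor (r : ℕ) : ∀ N : ℕ, N ≠ 0 →
    ∃ d : ℕ, d ∣ N ∧ d ^ (2 ^ r) ≤ N ∧ 2 * tau N ≤ (2 * tau d) ^ (2 ^ r) := by
  induction r with
  | zero =>
    intro N hN
    exact ⟨N, dvd_rfl, by simp, by simp⟩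
  | succ r ih =>
    intro N hN
    obtain ⟨m, hm1, hm2, hm3⟩ := exists_small_divisor N hN
    have hm0 : m ≠ 0 := by
      rintro rfl
      exact hN (Nat.eq_zero_of_zero_dvd hm1)
    obtain ⟨d, hd1, hd2, hd3⟩ := ih m hm0
    refine ⟨d, hd1.trans hm1, ?_, ?_⟩
    · calc d ^ (2 ^ (r + 1)) = d ^ (2 ^ r) * d ^ (2 ^ r) := by rw [pow_succ, mul_two, pow_add]
        _ ≤ m * m := Nat.mul_le_mul hd2 hd2
        _ ≤ N := hm2
    · calc 2 * tau N ≤ 2 * (2 * tau m ^ 2) := Nat.mul_le_mul_left 2 hm3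
        _ = (2 * tau m) * (2 * tau m) := by ring
        _ ≤ (2 * tau d) ^ (2 ^ r) * (2 * tau d) ^ (2 ^ r) := Nat.mul_le_mul hd3 hd3
        _ = (2 * tau d) ^ (2 ^ (r + 1)) := by rw [pow_succ, mul_two, pow_add]

/-- the sum over the small divisors -/
theorem tau_le_sum (r N D : ℕ) (hN : N ≠ 0) (h : N < (D + 1) ^ (2 ^ r)) :
    (tau N : ℝ) ≤ 2 ^ (2 ^ r) * ∑ d ∈ Icc 1 D, if d ∣ N then (tau d : ℝ) ^ (2 ^ r) else 0 := by
  obtain ⟨d, hd1, hd2, hd3⟩ := small_divisor r N hN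
  have hd0 : 1 ≤ d := Nat.pos_of_ne_zero (by
    rintro rfl
    exact hN (Nat.eq_zero_of_zero_dvd hd1))
  have hdD : d ≤ D := by
    by_contra hc
    push Not at hc
    have : (D + 1) ^ (2 ^ r) ≤ d ^ (2 ^ r) := Nat.pow_le_pow_left hc _
    omega
  have h1 : (tau d : ℝ) ^ (2 ^ r) ≤ ∑ d ∈ Icc 1 D, if d ∣ N then (tau d : ℝ) ^ (2 ^ r) else 0 := by
    have h2 := single_le_sum (f := fun d : ℕ => if d ∣ N then (tau d : ℝ) ^ (2 ^ r) else 0) (s := Icc 1 D)
      (fun i _ => by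
        split_ifs <;> positivity) (mem_Icc.2 ⟨hd0, hdD⟩)
    simp only [if_pos hd1] at h2
    exact h2
  have h3 : (2 * tau N : ℝ) ≤ (2 * tau d) ^ (2 ^ r) := by exact_mod_cast hd3
  have h4 : (0 : ℝ) ≤ tau N := Nat.cast_nonneg _
  calc (tau N : ℝ) ≤ 2 * tau N := by linarith
    _ ≤ (2 * tau d) ^ (2 ^ r) := h3
    _ = 2 ^ (2 ^ r) * (tau d : ℝ) ^ (2 ^ r) := mul_pow _ _ _
    _ ≤ _ := mul_le_mul_of_nonneg_left h1 (by positivity)

/-- the number of the solutions of a linear congruence -/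
theorem count_class (A B : ℤ) (G : ℕ) (hG : Int.gcd A B = G) (hG0 : 0 < G) (Y d : ℕ) (hd : 1 ≤ d) :
    (((Icc 1 Y).filter (fun v : ℕ => (d : ℤ) ∣ A * v + B)).card : ℝ) ≤ G * (Y / d + 1) := by
  classical
  obtain ⟨S, hS⟩ : ∃ S, S = (Icc 1 Y).filter (fun v : ℕ => (d : ℤ) ∣ A * v + B) := ⟨_, rfl⟩
  rw [← hS]
  have hG1 : (1 : ℝ) ≤ G := by exact_mod_cast hG0
  have hd0 : (0 : ℝ) < d := by exact_mod_cast hd
  rcases S.eq_empty_or_nonempty with he | ⟨v₀, hv₀⟩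
  · rw [he, card_empty, Nat.cast_zero]
    positivity
  obtain ⟨g, hg⟩ : ∃ g : ℕ, g = Int.gcd A d := ⟨_, rfl⟩
  have hgd : g ∣ d := by
    rw [hg]
    exact_mod_cast Int.gcd_dvd_right A (d : ℤ)
  have hgA : (g : ℤ) ∣ A := by rw [hg]; exact Int.gcd_dvd_left _ _
  have hg0 : 0 < g := Nat.pos_of_dvd_of_pos hgd hd
  obtain ⟨e, he⟩ := hgd
  have he0 : 0 < e := by
    rcases Nat.eq_zero_or_pos e with h | h
    · rw [h, mul_zero] at he
      omega
    · exact h
  have hmem : ∀ v ∈ S, 1 ≤ v ∧ v ≤ Y ∧ (d : ℤ) ∣ A * v + B := by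
    intro v hv
    rw [hS, mem_filter, mem_Icc] at hv
    exact ⟨hv.1.1, hv.1.2, hv.2⟩
  have hgB : (g : ℤ) ∣ B := by
    have h1 := (hmem v₀ hv₀).2.2
    have h2 : (g : ℤ) ∣ A * v₀ + B := (Int.natCast_dvd_natCast.2 ⟨e, he⟩).trans h1
    exact (dvd_add_right (Dvd.dvd.mul_right hgA _)).1 h2
  have hgG : g ≤ G := by
    have h1 : (g : ℤ) ∣ ((Int.gcd A B : ℕ) : ℤ) := Int.dvd_coe_gcd hgA hgB
    rw [hG] at h1
    exact Nat.le_of_dvd hG0 (by exact_mod_cast h1)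
  -- the class modulo e
  have hclass : ∀ v ∈ S, v % e = v₀ % e := by
    intro v hv
    have h1 := (hmem v hv).2.2
    have h2 := (hmem v₀ hv₀).2.2
    have h3 : (d : ℤ) ∣ A * ((v : ℤ) - v₀) := by
      have := dvd_sub h1 h2
      rw [show A * (v : ℤ) + B - (A * v₀ + B) = A * ((v : ℤ) - v₀) by ring] at this
      exact this
    obtain ⟨A', hA'⟩ := hgA
    have hg0' : (g : ℤ) ≠ 0 := by exact_mod_cast hg0.ne'
    have h4 : (e : ℤ) ∣ A' * ((v : ℤ) - v₀) := by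
      rw [hA', he, mul_assoc] at h3
      push_cast at h3
      exact (mul_dvd_mul_iff_left hg0').1 h3
    have h5 : IsCoprime (e : ℤ) A' := by
      rw [Int.isCoprime_iff_gcd_eq_one, Int.gcd_comm]
      have h6 : Int.gcd ((g : ℤ) * A') ((g : ℤ) * e) = g := by
        have : Int.gcd A d = g := hg.symm
        rw [hA', he] at this
        push_cast at this
        exact this
      rw [Int.gcd_mul_left, Int.natAbs_natCast] at h6
      exact Nat.eq_of_mul_eq_mul_left hg0 (by rw [h6, mul_one])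
    have h7 := h5.dvd_of_dvd_mul_left h4
    have h8 : (v : ℤ) ≡ v₀ [ZMOD e] := (Int.modEq_iff_dvd.2 (by
      have := (dvd_neg (α := ℤ)).2 h7
      rwa [neg_sub] at this))
    exact (Int.natCast_modEq_iff.1 h8)
  have hcard : (S.card : ℝ) ≤ Y / e + 1 := by
    have hinj : Set.InjOn (fun v : ℕ => v / e) (S : Set ℕ) := by
      intro v hv w hw hvw
      simp only at hvw
      have h1 := hclass v hv
      have h2 := hclass w hw
      rw [← Nat.div_add_mod v e, ← Nat.div_add_mod w e, hvw, h1, h2]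
    rw [← card_image_of_injOn hinj]
    have h1 : S.image (fun v : ℕ => v / e) ⊆ range (Y / e + 1) := by
      intro t ht
      rw [mem_image] at ht
      obtain ⟨v, hv, rfl⟩ := ht
      rw [mem_range]
      have := Nat.div_le_div_right (c := e) (hmem v hv).2.1
      omega
    have h2 := card_le_card h1
    rw [card_range] at h2
    have h3 : (((S.image (fun v : ℕ => v / e)).card : ℕ) : ℝ) ≤ ((Y / e : ℕ) : ℝ) + 1 := by exact_mod_cast h2
    exact h3.trans (by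
      have := Nat.cast_div_le (α := ℝ) (m := Y) (n := e)
      linarith)
  refine hcard.trans ?_
  have he0' : (0 : ℝ) < e := by exact_mod_cast he0
  have hde : (d : ℝ) = g * e := by rw [he]; push_cast; ring
  have hg0'' : (0 : ℝ) < g := by exact_mod_cast hg0
  have h1 : (Y : ℝ) / e = g * (Y / d) := by
    rw [hde]
    field_simp
  rw [h1, mul_add, mul_one]
  have hgG' : (g : ℝ) ≤ G := by exact_mod_cast hgG
  have h2 : (0 : ℝ) ≤ (Y : ℝ) / d := by positivity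
  have h3 : (g : ℝ) * (Y / d) ≤ G * (Y / d) := mul_le_mul_of_nonneg_right hgG' h2
  linarith

/-- the sum of the numbers of the divisors -/
theorem moment (r : ℕ) (A B : ℤ) (G : ℕ) (hG : Int.gcd A B = G) (hG0 : 0 < G) (Y D : ℕ) (hDY : D ≤ Y)
    (hsize : ∀ v ∈ Icc 1 Y, (A * (v : ℕ) + B).toNat < (D + 1) ^ (2 ^ r)) :
    ∑ v ∈ (Icc 1 Y).filter (fun v : ℕ => 0 < A * v + B), (tau (A * v + B).toNat : ℝ) ≤
      2 ^ (2 ^ r + 1) * G * Y * (1 + Real.log D) ^ (2 ^ (2 ^ r)) := by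
  classical
  obtain ⟨R, hR⟩ : ∃ R, R = 2 ^ r := ⟨_, rfl⟩
  have h1 : ∀ v ∈ (Icc 1 Y).filter (fun v : ℕ => 0 < A * v + B), (tau (A * v + B).toNat : ℝ) ≤
      2 ^ R * ∑ d ∈ Icc 1 D, if (d : ℤ) ∣ A * v + B then (tau d : ℝ) ^ R else 0 := by
    intro v hv
    rw [mem_filter] at hv
    have e1 : (((A * v + B).toNat : ℕ) : ℤ) = A * v + B := Int.toNat_of_nonneg hv.2.le
    have e2 := tau_le_sum r (A * v + B).toNat D (by omega) (hsize v hv.1)
    rw [← hR] at e2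
    refine e2.trans (le_of_eq ?_)
    congr 1
    apply sum_congr rfl
    intro d _
    have e3 : (d ∣ (A * v + B).toNat) ↔ (d : ℤ) ∣ A * v + B := by
      rw [← Int.natCast_dvd_natCast, e1]
    simp only [e3]
  have h2 : ∑ v ∈ (Icc 1 Y).filter (fun v : ℕ => 0 < A * v + B), (tau (A * v + B).toNat : ℝ) ≤
      2 ^ R * ∑ d ∈ Icc 1 D, (tau d : ℝ) ^ R * (((Icc 1 Y).filter (fun v : ℕ => (d : ℤ) ∣ A * v + B)).card : ℝ) := by
    refine (sum_le_sum h1).trans ?_
    rw [← mul_sum]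
    apply mul_le_mul_of_nonneg_left _ (by positivity)
    rw [sum_comm]
    apply sum_le_sum
    intro d _
    rw [← sum_filter, sum_const, nsmul_eq_mul, mul_comm]
    apply mul_le_mul_of_nonneg_left _ (by positivity)
    rw [Nat.cast_le]
    apply card_le_card
    intro v hv
    rw [mem_filter, mem_filter] at hv
    rw [mem_filter]
    exact ⟨hv.1.1, hv.2⟩
  refine h2.trans ?_
  have h3 : ∀ d ∈ Icc 1 D, (tau d : ℝ) ^ R * (((Icc 1 Y).filter (fun v : ℕ => (d : ℤ) ∣ A * v + B)).card : ℝ) ≤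
      2 * G * Y * ((tau d : ℝ) ^ R / d) := by
    intro d hd
    rw [mem_Icc] at hd
    have e1 := count_class A B G hG hG0 Y d hd.1
    have hd0 : (0 : ℝ) < d := by exact_mod_cast hd.1
    have e2 : (1 : ℝ) ≤ Y / d := by
      rw [le_div_iff₀ hd0, one_mul]
      exact_mod_cast hd.2.trans hDY
    have hG' : (0 : ℝ) ≤ G := Nat.cast_nonneg _
    have e3 : (((Icc 1 Y).filter (fun v : ℕ => (d : ℤ) ∣ A * v + B)).card : ℝ) ≤ G * (2 * (Y / d)) :=
      e1.trans (mul_le_mul_of_nonneg_left (by linarith) hG')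
    calc (tau d : ℝ) ^ R * (((Icc 1 Y).filter (fun v : ℕ => (d : ℤ) ∣ A * v + B)).card : ℝ) ≤
        (tau d : ℝ) ^ R * (G * (2 * (Y / d))) := mul_le_mul_of_nonneg_left e3 (by positivity)
      _ = 2 * G * Y * ((tau d : ℝ) ^ R / d) := by ring
  have h4 : ∑ d ∈ Icc 1 D, (tau d : ℝ) ^ R * (((Icc 1 Y).filter (fun v : ℕ => (d : ℤ) ∣ A * v + B)).card : ℝ) ≤
      2 * G * Y * (1 + Real.log D) ^ (2 ^ R) := by
    refine (sum_le_sum h3).trans ?_
    rw [← mul_sum]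
    apply mul_le_mul_of_nonneg_left _ (by positivity)
    have := tsm_le R D
    unfold tsm at this
    exact this
  calc 2 ^ R * ∑ d ∈ Icc 1 D, (tau d : ℝ) ^ R * (((Icc 1 Y).filter (fun v : ℕ => (d : ℤ) ∣ A * v + B)).card : ℝ) ≤
      2 ^ R * (2 * G * Y * (1 + Real.log D) ^ (2 ^ R)) := mul_le_mul_of_nonneg_left h4 (by positivity)
    _ = 2 ^ (2 ^ r + 1) * G * Y * (1 + Real.log D) ^ (2 ^ (2 ^ r)) := by
        rw [hR, pow_succ]
        ring

end Pool.Agent.U365.TAU
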