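import Pool.Agent.N733.AQ.D
import Pool.Agent.U365.TAU.A

set_option autoImplicit false

/-! The numbers `α k + β f(k)`, `m = k p`, have few divisors for almost all `m`. -/

namespace Pool.Agent.U365.TAU

open Finset Filter H359R2 Pool.Agent.N733.AQ Pool.Agent.N733.TG

open Classical in
/-- few integers `m = k p` have a small cofactor `k` -/
theorem few_cofactor (ε : ℝ) (hε : 0 < ε) : ∃ δ : ℝ, 0 < δ ∧ δ ≤ 1 / 2 ∧ ∃ x₀ : ℕ, ∀ x : ℕ, x₀ ≤ x →
    (((Icc 1 x).filter (fun m => ∃ k p : ℕ, m = k * p ∧ 1 ≤ k ∧ p.Prime ∧ (k : ℝ) ≤ (x : ℝ) ^ δ)).card : ℝ) ≤ ε * x := by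
  obtain ⟨δ, hδ⟩ : ∃ δ : ℝ, δ = min (ε / 8) (1 / 2) := ⟨_, rfl⟩
  have hδ0 : 0 < δ := by rw [hδ]; exact lt_min (by linarith) (by norm_num)
  have hδε : δ ≤ ε / 8 := by rw [hδ]; exact min_le_left _ _
  have hδ2 : δ ≤ 1 / 2 := by rw [hδ]; exact min_le_right _ _
  have hlog4 : Real.log 4 ≤ 3 / 2 := by
    have : Real.log 4 = 2 * Real.log 2 := by
      rw [show (4 : ℝ) = 2 ^ 2 by norm_num, Real.log_pow]
      norm_num
    rw [this]
    have := Real.log_two_lt_d9
    linarith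
  obtain ⟨y₀, hy₀⟩ := eventually_atTop.1 (Chebyshev.eventually_primeCounting_le (ε := 1 / 2) (by norm_num))
  have t1 := ((tendsto_rpow_atTop (show (0 : ℝ) < 1 / 2 by norm_num)).comp
    (tendsto_natCast_atTop_atTop (R := ℝ))).eventually_ge_atTop (max y₀ 2)
  have t2 := (Real.tendsto_log_atTop.comp (tendsto_natCast_atTop_atTop (R := ℝ))).eventually_ge_atTop (8 / ε + 2)
  obtain ⟨n1, hn1⟩ := eventually_atTop.1 (t1.and t2)
  refine ⟨δ, hδ0, hδ2, n1 + 1, fun x hx => ?_⟩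
  obtain ⟨h1, h2⟩ := hn1 x (by omega)
  simp only [Function.comp] at h1 h2
  obtain ⟨L, hL⟩ : ∃ L, L = Real.log x := ⟨_, rfl⟩
  rw [← hL] at h2
  have hx1 : (1 : ℝ) ≤ x := by exact_mod_cast (by omega : 1 ≤ x)
  have hx0 : (0 : ℝ) < x := by linarith
  have h8 : 0 < 8 / ε := by positivity
  have hL0 : 0 < L := by linarith
  obtain ⟨K, hK⟩ : ∃ K : ℕ, K = ⌊(x : ℝ) ^ δ⌋₊ := ⟨_, rfl⟩
  have hKx : (K : ℝ) ≤ (x : ℝ) ^ δ := by rw [hK]; exact Nat.floor_le (by positivity)
  have hK1 : 1 ≤ K := by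
    rw [hK]
    apply Nat.le_floor
    rw [Nat.cast_one]
    exact Real.one_le_rpow hx1 hδ0.le
  have hsub : (Icc 1 x).filter (fun m => ∃ k p : ℕ, m = k * p ∧ 1 ≤ k ∧ p.Prime ∧ (k : ℝ) ≤ (x : ℝ) ^ δ) ⊆
      (Icc 1 K).biUnion (fun k => ((range (x / k + 1)).filter Nat.Prime).image (fun p => k * p)) := by
    intro m hm
    rw [mem_filter, mem_Icc] at hm
    obtain ⟨⟨hm1, hm2⟩, k, p, rfl, hk, hp, hkx⟩ := hm
    rw [mem_biUnion]
    refine ⟨k, mem_Icc.2 ⟨hk, by rw [hK]; exact Nat.le_floor hkx⟩, ?_⟩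
    rw [mem_image]
    refine ⟨p, ?_, rfl⟩
    rw [mem_filter, mem_range]
    refine ⟨?_, hp⟩
    have : p ≤ x / k := by
      rw [Nat.le_div_iff_mul_le hk, mul_comm]
      exact hm2
    omega
  have hk : ∀ k ∈ Icc 1 K, ((((range (x / k + 1)).filter Nat.Prime).image (fun p => k * p)).card : ℝ) ≤
      4 * x / L * (1 / k) := by
    intro k hk
    rw [mem_Icc] at hk
    have hk0 : (0 : ℝ) < k := by exact_mod_cast hk.1
    have hkK : (k : ℝ) ≤ (x : ℝ) ^ δ := le_trans (by exact_mod_cast hk.2) hKx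
    have hkh : (k : ℝ) ≤ (x : ℝ) ^ (1 / 2 : ℝ) := hkK.trans (Real.rpow_le_rpow_of_exponent_le hx1 hδ2)
    have hxx : (x : ℝ) = (x : ℝ) ^ (1 / 2 : ℝ) * (x : ℝ) ^ (1 / 2 : ℝ) := by
      rw [← Real.rpow_add hx0]
      norm_num
    have hy : (x : ℝ) ^ (1 / 2 : ℝ) ≤ x / k := by
      rw [le_div_iff₀ hk0]
      calc (x : ℝ) ^ (1 / 2 : ℝ) * k ≤ (x : ℝ) ^ (1 / 2 : ℝ) * (x : ℝ) ^ (1 / 2 : ℝ) :=
            mul_le_mul_of_nonneg_left hkh (by positivity)
        _ = x := hxx.symm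
    have hyy : y₀ ≤ (x : ℝ) / k := (le_max_left _ _).trans (h1.trans hy)
    have h3 := hy₀ _ hyy
    have hfl : ⌊(x : ℝ) / k⌋₊ = x / k := Nat.floor_div_eq_div x k
    rw [hfl] at h3
    have hly : L / 2 ≤ Real.log ((x : ℝ) / k) := by
      have := Real.log_le_log (by positivity) hy
      rw [Real.log_rpow hx0, ← hL] at this
      linarith
    have hy0 : 0 < (x : ℝ) / k := by positivity
    have h4 : (((range (x / k + 1)).filter Nat.Prime).card : ℝ) ≤ 2 * (x / k) / (L / 2) := by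
      have e1 : ((range (x / k + 1)).filter Nat.Prime).card = Nat.primeCounting (x / k) := by
        rw [Nat.primeCounting, Nat.primeCounting', Nat.count_eq_card_filter_range]
      rw [e1]
      refine h3.trans ?_
      apply div_le_div₀ (by positivity) _ (by positivity) hly
      apply mul_le_mul_of_nonneg_right _ hy0.le
      linarith
    have h5 : ((((range (x / k + 1)).filter Nat.Prime).image (fun p => k * p)).card : ℝ) ≤
        (((range (x / k + 1)).filter Nat.Prime).card : ℝ) := by exact_mod_cast card_image_le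
    refine h5.trans (h4.trans (le_of_eq ?_))
    field_simp
    ring
  have hcard : (((Icc 1 x).filter (fun m => ∃ k p : ℕ, m = k * p ∧ 1 ≤ k ∧ p.Prime ∧
      (k : ℝ) ≤ (x : ℝ) ^ δ)).card : ℝ) ≤ 4 * x / L * (1 + Real.log K) := by
    have e1 : (((Icc 1 x).filter (fun m => ∃ k p : ℕ, m = k * p ∧ 1 ≤ k ∧ p.Prime ∧
        (k : ℝ) ≤ (x : ℝ) ^ δ)).card : ℝ) ≤
        ∑ k ∈ Icc 1 K, ((((range (x / k + 1)).filter Nat.Prime).image (fun p => k * p)).card : ℝ) := by
      exact_mod_cast (card_le_card hsub).trans card_biUnion_le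
    refine e1.trans ((sum_le_sum hk).trans ?_)
    rw [← mul_sum]
    exact mul_le_mul_of_nonneg_left (Pool.Agent.N733.AQ.harm K) (by positivity)
  refine hcard.trans ?_
  have hlK : Real.log K ≤ δ * L := by
    have := Real.log_le_log (by exact_mod_cast hK1) hKx
    rw [Real.log_rpow hx0, ← hL] at this
    exact this
  have h9 : 8 ≤ ε * L := by
    have : 8 / ε ≤ L := by linarith
    rw [div_le_iff₀ hε] at this
    linarith
  calc 4 * (x : ℝ) / L * (1 + Real.log K) ≤ 4 * x / L * (1 + ε / 8 * L) := by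
        apply mul_le_mul_of_nonneg_left _ (by positivity)
        have : δ * L ≤ ε / 8 * L := mul_le_mul_of_nonneg_right hδε hL0.le
        linarith
    _ = 4 * x * (1 / L + ε / 8) := by
        field_simp
    _ ≤ 4 * x * (ε / 8 + ε / 8) := by
        apply mul_le_mul_of_nonneg_left _ (by positivity)
        have : 1 / L ≤ ε / 8 := by
          rw [div_le_div_iff₀ hL0 (by norm_num)]
          linarith
        linarith
    _ = ε * x := by ring

end Pool.Agent.U365.TAU
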