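import Pool.Agent.U365.TAU.B

set_option autoImplicit false

/-! The numbers `α k + β f(k)`, `m = k p`, have few divisors for almost all `m`. -/

namespace Pool.Agent.U365.TAU

open Finset Filter H359R2 Pool.Agent.N733.AQ Pool.Agent.N733.TG

/-- the number of the `v` with many divisors -/
theorem bad_v (r : ℕ) (A B : ℤ) (G : ℕ) (hG : Int.gcd A B = G) (hG0 : 0 < G) (Y z : ℕ) (hz : 1 ≤ z)
    (hsize : ∀ v ∈ Icc 1 Y, (A * (v : ℕ) + B).toNat < (z + 1) ^ (2 ^ r)) (M : ℝ) (hM : 0 < M) :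
    (((Icc 1 Y).filter (fun v : ℕ => z < v ∧ 0 < A * v + B ∧ M < tau (A * v + B).toNat)).card : ℝ) ≤
      2 ^ (2 ^ r + 1) * G * Y * (1 + Real.log z) ^ (2 ^ (2 ^ r)) / M := by
  classical
  have hz1 : (1 : ℝ) ≤ z := by exact_mod_cast hz
  have hlz : 0 ≤ Real.log z := Real.log_nonneg hz1
  rcases Nat.lt_or_ge z Y with hzY | hzY
  · rw [le_div_iff₀ hM]
    refine le_trans ?_ (moment r A B G hG hG0 Y z hzY.le hsize)
    have h1 : (Icc 1 Y).filter (fun v : ℕ => z < v ∧ 0 < A * v + B ∧ M < tau (A * v + B).toNat) ⊆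
        (Icc 1 Y).filter (fun v : ℕ => 0 < A * v + B) := by
      intro v hv
      rw [mem_filter] at hv ⊢
      exact ⟨hv.1, hv.2.2.1⟩
    refine le_trans ?_ (sum_le_sum_of_subset_of_nonneg h1 (fun _ _ _ => Nat.cast_nonneg _))
    rw [← nsmul_eq_mul]
    apply card_nsmul_le_sum
    intro v hv
    rw [mem_filter] at hv
    exact hv.2.2.2.le
  · have h1 : (Icc 1 Y).filter (fun v : ℕ => z < v ∧ 0 < A * v + B ∧ M < tau (A * v + B).toNat) = ∅ := by
      apply filter_eq_empty_iff.2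
      intro v hv hcon
      rw [mem_Icc] at hv
      omega
    rw [h1, card_empty, Nat.cast_zero]
    positivity

open Classical in
theorem tau_few {f : ℕ → ℕ} {c : ℤ} (hf : TM f c) (hc : c ≠ 0) (α β : ℤ) (hα : α ≠ 0) (hβ : β ≠ 0) (ε : ℝ)
    (hε : 0 < ε) : ∃ C x₀ : ℕ, ∀ x : ℕ, x₀ ≤ x →
      (((Icc 1 x).filter (fun m => ∃ k p : ℕ, m = k * p ∧ 1 ≤ k ∧ p.Prime ∧ ¬ p ∣ k ∧ 0 < α * k + β * f k ∧
        Real.log x ^ C < (tau (α * k + β * f k).toNat : ℝ))).card : ℝ) ≤ ε * x := by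
  obtain ⟨P, hP⟩ := hf.prime
  obtain ⟨C', hC'⟩ := hf.growth
  obtain ⟨Cg, xg, hg⟩ := gcd_few hf.sm hc (ε / 5) (by positivity)
  obtain ⟨δ₁, hδ₁0, hδ₁2, xk, hk⟩ := few_cofactor (ε / 5) (by positivity)
  obtain ⟨C1, hC10, hC1⟩ := few_large
  obtain ⟨s, hs⟩ := exists_nat_gt (5 / ε)
  have h5e : 0 < 5 / ε := by positivity
  have hs0 : (0 : ℝ) < s := by linarith
  have hs1 : 1 ≤ s := by exact_mod_cast hs0
  obtain ⟨δ, hδ⟩ : ∃ δ : ℝ, δ = δ₁ * ε / (20 * (1 + ε)) := ⟨_, rfl⟩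
  have hδ0 : 0 < δ := by rw [hδ]; positivity
  have hδε : 20 * δ ≤ ε * δ₁ := by
    have : 20 * δ = δ₁ * ε / (1 + ε) := by rw [hδ]; field_simp
    rw [this, div_le_iff₀ (by positivity)]
    nlinarith [mul_pos hδ₁0 hε]
  have hδ1 : δ ≤ 1 := by
    rw [hδ, div_le_one (by positivity)]
    nlinarith
  obtain ⟨r, hr⟩ : ∃ r : ℕ, 3 / δ ≤ (2 : ℝ) ^ r := by
    obtain ⟨r, hr⟩ := pow_unbounded_of_one_lt (3 / δ) (show (1 : ℝ) < 2 by norm_num)
    exact ⟨r, hr.le⟩
  obtain ⟨R, hR⟩ : ∃ R : ℕ, R = 2 ^ r := ⟨_, rfl⟩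
  have hRδ : 3 ≤ δ * R := by
    rw [div_le_iff₀ hδ0] at hr
    rw [hR]
    push_cast
    linarith
  obtain ⟨C, hC⟩ : ∃ C : ℕ, C = R + 1 + (Cg + 1) + 2 * (2 ^ R + 2) + 1 := ⟨_, rfl⟩
  obtain ⟨x1, hx1⟩ := eventually_atTop.1 (Pool.Agent.R460.GS.real_log (2 * C' + 3) (s := δ) hδ0
    (5 / ε + 20 * C1 / (ε * δ₁) + |(α : ℝ)| + |(β : ℝ)| + |(β : ℝ)| * |(c : ℝ)| + ((α * β * c).natAbs : ℝ) + s + P + 2))
  obtain ⟨n1, hn1⟩ := exists_nat_ge x1
  refine ⟨C, xg + xk + n1 + 3, fun x hx => ?_⟩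
  obtain ⟨hLb, hLp⟩ := hx1 x (hn1.trans (by exact_mod_cast (by omega : n1 ≤ x)))
  obtain ⟨L, hL⟩ : ∃ L, L = Real.log x := ⟨_, rfl⟩
  rw [← hL] at hLb hLp ⊢
  have q0 : 0 ≤ 20 * C1 / (ε * δ₁) := by positivity
  have q1 : 0 ≤ |(α : ℝ)| := abs_nonneg _
  have q2 : 0 ≤ |(β : ℝ)| := abs_nonneg _
  have q3 : 0 ≤ |(β : ℝ)| * |(c : ℝ)| := by positivity
  have q4 : (0 : ℝ) ≤ ((α * β * c).natAbs : ℝ) := Nat.cast_nonneg _
  have q6 : (0 : ℝ) ≤ P := Nat.cast_nonneg _
  have hL2 : 2 ≤ L := by linarith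
  have hLe : 5 / ε ≤ L := by linarith
  have hL1 : 1 ≤ L := by linarith
  have hL0 : 0 < L := by linarith
  have hLs : (s : ℝ) < L := by linarith
  have hN1 : (1 : ℝ) ≤ x := by exact_mod_cast (by omega : 1 ≤ x)
  have hN0 : (0 : ℝ) < x := by linarith
  have hxδ : L ≤ (x : ℝ) ^ δ := by
    refine le_trans ?_ hLp
    calc L = L ^ 1 := (pow_one L).symm
      _ ≤ L ^ (2 * C' + 3) := pow_le_pow_right₀ hL1 (by omega)
  obtain ⟨z, hz⟩ : ∃ z : ℕ, z = ⌊(x : ℝ) ^ δ⌋₊ := ⟨_, rfl⟩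
  have hzx : (z : ℝ) ≤ (x : ℝ) ^ δ := by rw [hz]; exact Nat.floor_le (by positivity)
  have hzx' : (x : ℝ) ^ δ < z + 1 := by rw [hz]; exact Nat.lt_floor_add_one _
  have hz1 : 1 ≤ z := by
    rw [hz]
    apply Nat.le_floor
    rw [Nat.cast_one]
    linarith
  have hz1' : (1 : ℝ) ≤ z := by exact_mod_cast hz1
  have hsz : s ≤ z := by
    rw [hz]
    apply Nat.le_floor
    linarith
  have hPz : P ≤ z := by
    rw [hz]
    apply Nat.le_floor
    linarith
  have hlogz : Real.log z ≤ δ * L := by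
    have := Real.log_le_log (by linarith) hzx
    rwa [Real.log_rpow hN0, ← hL] at this
  have hlogz0 : 0 ≤ Real.log z := Real.log_nonneg hz1'
  have hlogzL : Real.log z ≤ L := hlogz.trans (by nlinarith)
  -- the functions
  obtain ⟨A, hA⟩ : ∃ A : ℕ → ℤ, A = fun k : ℕ => α * k + β * f k := ⟨_, rfl⟩
  obtain ⟨B, hB⟩ : ∃ B : ℕ → ℤ, B = fun k : ℕ => β * c * f k := ⟨_, rfl⟩
  -- the exceptional sets
  obtain ⟨S0, hS0⟩ : ∃ S0 : Finset ℕ, S0 = (Icc 1 x).filter (fun m => ∃ k p : ℕ, m = k * p ∧ 1 ≤ k ∧ p.Prime ∧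
    (k : ℝ) ≤ (x : ℝ) ^ δ₁) := ⟨_, rfl⟩
  obtain ⟨S1, hS1⟩ : ∃ S1 : Finset ℕ, S1 = (Icc 1 x).filter (fun m => ∃ t : ℕ, s < t ∧ t ^ 2 ∣ m) := ⟨_, rfl⟩
  obtain ⟨S2, hS2⟩ : ∃ S2 : Finset ℕ, S2 = (Icc 1 x).filter (fun m => ∃ k : ℕ, 1 ≤ k ∧ k ∣ m ∧
    L ^ Cg < (Nat.gcd k (f k) : ℝ)) := ⟨_, rfl⟩
  obtain ⟨S3, hS3⟩ : ∃ S3 : Finset ℕ, S3 = (Icc 1 x).filter (fun m => (x : ℝ) ^ δ₁ < (sp z m : ℝ)) := ⟨_, rfl⟩
  obtain ⟨V, hV⟩ : ∃ V : ℕ × ℕ → Finset ℕ, V = fun w => (Icc 1 (x / (w.1 * w.2))).filter (fun v : ℕ =>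
    (Int.gcd (A w.2) (B w.2) : ℝ) ≤ L ^ (Cg + 1) ∧ z < v ∧ 0 < A w.2 * v + B w.2 ∧
      L ^ C < (tau (A w.2 * v + B w.2).toNat : ℝ)) := ⟨_, rfl⟩
  obtain ⟨S4, hS4⟩ : ∃ S4 : Finset ℕ, S4 = (Icc 1 x ×ˢ Icc 1 x).biUnion (fun w => (V w).image
    (fun v => w.2 * v * w.1)) := ⟨_, rfl⟩
  have hc0 : (S0.card : ℝ) ≤ ε / 5 * x := by
    rw [hS0]
    exact hk x (by omega)
  have hc1 : (S1.card : ℝ) ≤ ε / 5 * x := by
    rw [hS1]
    refine (few_sq x s hs1).trans ?_
    rw [div_le_iff₀ hs0]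
    rw [div_lt_iff₀ hε] at hs
    nlinarith
  have hc2 : (S2.card : ℝ) ≤ ε / 5 * x := by
    rw [hS2, hL]
    exact hg x (by omega)
  have hc3 : (S3.card : ℝ) ≤ ε / 5 * x := by
    have hY : (1 : ℝ) < (x : ℝ) ^ δ₁ := by
      apply Real.one_lt_rpow _ hδ₁0
      exact_mod_cast (by omega : 1 < x)
    have h1 := hC1 x z _ hz1 hY
    rw [hS3]
    refine h1.trans ?_
    rw [Real.log_rpow hN0, ← hL, div_le_iff₀ (by positivity)]
    have h3 : 20 * C1 ≤ ε * δ₁ * L := by
      have : 20 * C1 / (ε * δ₁) ≤ L := by linarith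
      rw [div_le_iff₀ (by positivity)] at this
      linarith
    have h4 : 20 * Real.log z ≤ ε * δ₁ * L := by
      calc 20 * Real.log z ≤ 20 * (δ * L) := by linarith
        _ = (20 * δ) * L := by ring
        _ ≤ (ε * δ₁) * L := mul_le_mul_of_nonneg_right hδε hL0.le
    have h5 : 2 * (x : ℝ) * (Real.log z + C1) ≤ 2 * x * (ε * δ₁ * L / 10) := by
      apply mul_le_mul_of_nonneg_left _ (by positivity)
      linarith
    refine h5.trans (le_of_eq ?_)
    ring
  have hVw : ∀ w ∈ Icc 1 x ×ˢ Icc 1 x, ((V w).card : ℝ) ≤ x / L ^ 5 * ((1 / w.1) * (1 / w.2)) := by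
    rintro ⟨p, k⟩ hw
    rw [mem_product, mem_Icc, mem_Icc] at hw
    obtain ⟨⟨hp1, hpx⟩, hk1, hkx⟩ := hw
    simp only at hp1 hpx hk1 hkx ⊢
    have hp0 : (0 : ℝ) < p := by exact_mod_cast hp1
    have hk0 : (0 : ℝ) < k := by exact_mod_cast hk1
    obtain ⟨G, hG⟩ : ∃ G : ℕ, G = Int.gcd (A k) (B k) := ⟨_, rfl⟩
    have hfk1 := hf.pos k hk1
    have hG0 : 0 < G := by
      rw [hG]
      apply Int.gcd_pos_of_ne_zero_right
      rw [hB]
      exact mul_ne_zero (mul_ne_zero hβ hc) (by exact_mod_cast (by omega : f k ≠ 0))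
    obtain ⟨Y, hY⟩ : ∃ Y : ℕ, Y = x / (p * k) := ⟨_, rfl⟩
    have hYx : (Y : ℝ) ≤ x / (p * k) := by
      rw [hY]
      have := Nat.cast_div_le (α := ℝ) (m := x) (n := p * k)
      push_cast at this
      exact this
    by_cases hGL : (G : ℝ) ≤ L ^ (Cg + 1)
    · -- the size
      have hlk : Real.log k ≤ L := by
        rw [hL]
        exact Real.log_le_log hk0 (by exact_mod_cast hkx)
      have hlk0 : 0 ≤ Real.log k := Real.log_nonneg (by exact_mod_cast hk1)
      have hfk : (f k : ℝ) ≤ k * L ^ (2 * C') := by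
        refine (hC' k hk1).trans ?_
        apply mul_le_mul_of_nonneg_left _ hk0.le
        rw [pow_mul]
        apply pow_le_pow_left₀ (by linarith)
        nlinarith
      have hfk0 : (0 : ℝ) ≤ f k := Nat.cast_nonneg _
      have hLC : (1 : ℝ) ≤ L ^ (2 * C') := one_le_pow₀ hL1
      have hsize : ∀ v ∈ Icc 1 Y, (A k * (v : ℕ) + B k).toNat < (z + 1) ^ (2 ^ r) := by
        intro v hv
        rw [mem_Icc] at hv
        have hv1 : (1 : ℝ) ≤ v := by exact_mod_cast hv.1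
        have hvY : (v : ℝ) ≤ Y := by exact_mod_cast hv.2
        have hkv : (k : ℝ) * v ≤ x := by
          have e1 : (v : ℝ) ≤ x / (p * k) := hvY.trans hYx
          rw [le_div_iff₀ (by positivity)] at e1
          have e2 : (1 : ℝ) ≤ p := by exact_mod_cast hp1
          have e3 : (0 : ℝ) ≤ k * v := by positivity
          nlinarith
        have e1 : ((A k * (v : ℕ) + B k : ℤ) : ℝ) ≤ (x : ℝ) ^ (2 : ℝ) := by
          rw [hA, hB]
          push_cast
          have g1 : (α : ℝ) * k * v ≤ |(α : ℝ)| * (k * v * L ^ (2 * C')) := by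
            calc (α : ℝ) * k * v = α * (k * v) := by ring
              _ ≤ |(α : ℝ)| * (k * v) := mul_le_mul_of_nonneg_right (le_abs_self _) (by positivity)
              _ ≤ |(α : ℝ)| * (k * v * L ^ (2 * C')) := by
                apply mul_le_mul_of_nonneg_left _ q1
                exact le_mul_of_one_le_right (by positivity) hLC
          have g2 : (β : ℝ) * f k * v ≤ |(β : ℝ)| * (k * v * L ^ (2 * C')) := by
            calc (β : ℝ) * f k * v = β * (f k * v) := by ring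
              _ ≤ |(β : ℝ)| * (f k * v) := mul_le_mul_of_nonneg_right (le_abs_self _) (by positivity)
              _ ≤ |(β : ℝ)| * (k * L ^ (2 * C') * v) := by
                apply mul_le_mul_of_nonneg_left _ q2
                exact mul_le_mul_of_nonneg_right hfk (by linarith)
              _ = _ := by ring
          have g3 : (β : ℝ) * c * f k ≤ (|(β : ℝ)| * |(c : ℝ)|) * (k * v * L ^ (2 * C')) := by
            calc (β : ℝ) * c * f k ≤ |(β : ℝ) * c| * f k := mul_le_mul_of_nonneg_right (le_abs_self _) hfk0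
              _ = (|(β : ℝ)| * |(c : ℝ)|) * f k := by rw [abs_mul]
              _ ≤ (|(β : ℝ)| * |(c : ℝ)|) * (k * L ^ (2 * C')) := mul_le_mul_of_nonneg_left hfk q3
              _ ≤ (|(β : ℝ)| * |(c : ℝ)|) * (k * v * L ^ (2 * C')) := by
                apply mul_le_mul_of_nonneg_left _ q3
                apply mul_le_mul_of_nonneg_right _ (by positivity)
                nlinarith
          have g4 : 0 ≤ (k : ℝ) * v * L ^ (2 * C') := by positivity
          have g5 : (α : ℝ) * k * v + β * f k * v + β * c * f k ≤ L * (k * v * L ^ (2 * C')) := by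
            calc (α : ℝ) * k * v + β * f k * v + β * c * f k ≤
                (|(α : ℝ)| + |(β : ℝ)| + |(β : ℝ)| * |(c : ℝ)|) * (k * v * L ^ (2 * C')) := by linarith
              _ ≤ L * (k * v * L ^ (2 * C')) := mul_le_mul_of_nonneg_right (by linarith) g4
          calc ((α : ℝ) * k + β * f k) * v + β * c * f k = α * k * v + β * f k * v + β * c * f k := by ring
            _ ≤ L * (k * v * L ^ (2 * C')) := g5
            _ = (k * v) * L ^ (2 * C' + 1) := by ring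
            _ ≤ x * x := by
                apply mul_le_mul hkv _ (by positivity) hN0.le
                calc L ^ (2 * C' + 1) ≤ L ^ (2 * C' + 3) := pow_le_pow_right₀ hL1 (by omega)
                  _ ≤ (x : ℝ) ^ δ := hLp
                  _ ≤ (x : ℝ) ^ (1 : ℝ) := Real.rpow_le_rpow_of_exponent_le hN1 hδ1
                  _ = x := Real.rpow_one _
            _ = (x : ℝ) ^ (2 : ℝ) := by
                rw [Real.rpow_two]
                ring
        have e2 : (x : ℝ) ^ (2 : ℝ) < ((z : ℝ) + 1) ^ R := by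
          calc (x : ℝ) ^ (2 : ℝ) < (x : ℝ) ^ (3 : ℝ) := by
                apply Real.rpow_lt_rpow_of_exponent_lt _ (by norm_num)
                exact_mod_cast (by omega : 1 < x)
            _ ≤ (x : ℝ) ^ (δ * R) := Real.rpow_le_rpow_of_exponent_le hN1 hRδ
            _ = ((x : ℝ) ^ δ) ^ R := by rw [Real.rpow_mul hN0.le, Real.rpow_natCast]
            _ ≤ ((z : ℝ) + 1) ^ R := pow_le_pow_left₀ (by positivity) hzx'.le R
        have e3 : ((A k * (v : ℕ) + B k : ℤ) : ℝ) < ((((z + 1) ^ (2 ^ r) : ℕ) : ℤ) : ℝ) := by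
          rw [← hR]
          push_cast
          exact lt_of_le_of_lt (by exact_mod_cast e1) e2
        have e4 : A k * (v : ℕ) + B k < (((z + 1) ^ (2 ^ r) : ℕ) : ℤ) := by exact_mod_cast e3
        have e5 : 0 < (z + 1) ^ (2 ^ r) := by positivity
        omega
      have hbad := bad_v r (A k) (B k) G hG.symm hG0 Y z hz1 hsize (L ^ C) (by positivity)
      have hVle : ((V (p, k)).card : ℝ) ≤
          (((Icc 1 Y).filter (fun v : ℕ => z < v ∧ 0 < A k * v + B k ∧ L ^ C < tau (A k * v + B k).toNat)).card : ℝ) := by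
        rw [Nat.cast_le]
        apply card_le_card
        intro v hv
        rw [hV] at hv
        simp only at hv
        rw [mem_filter] at hv
        rw [mem_filter, hY]
        exact ⟨hv.1, hv.2.2⟩
      refine hVle.trans (hbad.trans ?_)
      rw [← hR]
      have e1 : (1 + Real.log z) ^ (2 ^ R) ≤ L ^ (2 * 2 ^ R) := by
        rw [pow_mul]
        apply pow_le_pow_left₀ (by linarith)
        nlinarith
      have e2 : (2 : ℝ) ^ (R + 1) ≤ L ^ (R + 1) := pow_le_pow_left₀ (by norm_num) hL2 _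
      have e3 : (0 : ℝ) ≤ G := Nat.cast_nonneg _
      have e4 : (0 : ℝ) ≤ Y := Nat.cast_nonneg _
      calc 2 ^ (R + 1) * (G : ℝ) * Y * (1 + Real.log z) ^ (2 ^ R) / L ^ C ≤
          L ^ (R + 1) * L ^ (Cg + 1) * (x / (p * k)) * L ^ (2 * 2 ^ R) / L ^ C := by
            apply div_le_div_of_nonneg_right _ (by positivity)
            apply mul_le_mul _ e1 (by positivity) (by positivity)
            apply mul_le_mul _ hYx e4 (by positivity)
            exact mul_le_mul e2 hGL e3 (by positivity)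
        _ = x / L ^ 5 * ((1 / p) * (1 / k)) := by
            have e5 : L ^ C = L ^ (R + 1) * L ^ (Cg + 1) * L ^ (2 * 2 ^ R) * L ^ 5 := by
              have e6 : C = (R + 1) + (Cg + 1) + 2 * 2 ^ R + 5 := by rw [hC]; ring
              rw [e6, pow_add, pow_add, pow_add]
            rw [e5]
            field_simp
    · have hVe : V (p, k) = ∅ := by
        rw [hV]
        simp only
        apply filter_eq_empty_iff.2
        intro v _ hcon
        exact hGL (by rw [hG]; exact hcon.1)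
      rw [hVe, card_empty, Nat.cast_zero]
      positivity
  have hc4 : (S4.card : ℝ) ≤ ε / 5 * x := by
    have e1 : (S4.card : ℝ) ≤ ∑ w ∈ Icc 1 x ×ˢ Icc 1 x, x / L ^ 5 * ((1 / w.1) * (1 / w.2) : ℝ) := by
      have e2 : S4.card ≤ ∑ w ∈ Icc 1 x ×ˢ Icc 1 x, (V w).card := by
        rw [hS4]
        exact card_biUnion_le.trans (sum_le_sum fun _ _ => card_image_le)
      have e3 : (S4.card : ℝ) ≤ ∑ w ∈ Icc 1 x ×ˢ Icc 1 x, ((V w).card : ℝ) := by exact_mod_cast e2
      exact e3.trans (sum_le_sum hVw)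
    refine e1.trans ?_
    rw [← mul_sum, sum_product]
    simp only
    have e4 : ∑ i ∈ Icc 1 x, ∑ j ∈ Icc 1 x, (1 / (i : ℝ)) * (1 / (j : ℝ)) =
        (∑ i ∈ Icc 1 x, (1 / (i : ℝ))) * ∑ j ∈ Icc 1 x, (1 / (j : ℝ)) := by
      rw [sum_mul_sum]
    rw [e4]
    have e5 := Pool.Agent.N733.AQ.harm x
    rw [← hL] at e5
    have e6 : 0 ≤ ∑ i ∈ Icc 1 x, (1 / (i : ℝ)) := sum_nonneg fun _ _ => by positivity
    calc (x : ℝ) / L ^ 5 * ((∑ i ∈ Icc 1 x, (1 / (i : ℝ))) * ∑ j ∈ Icc 1 x, (1 / (j : ℝ))) ≤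
        x / L ^ 5 * ((1 + L) * (1 + L)) := by
          apply mul_le_mul_of_nonneg_left _ (by positivity)
          exact mul_le_mul e5 e5 e6 (by linarith)
      _ ≤ x / L ^ 5 * (L ^ 2 * L ^ 2) := by
          apply mul_le_mul_of_nonneg_left _ (by positivity)
          have : 1 + L ≤ L ^ 2 := by nlinarith
          exact mul_le_mul this this (by linarith) (by positivity)
      _ = x / L := by
          field_simp
      _ ≤ ε / 5 * x := by
          rw [div_le_iff₀ hL0]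
          rw [div_le_iff₀ hε] at hLe
          nlinarith
  -- the inclusion
  have hsub : (Icc 1 x).filter (fun m => ∃ k p : ℕ, m = k * p ∧ 1 ≤ k ∧ p.Prime ∧ ¬ p ∣ k ∧ 0 < α * k + β * f k ∧
        L ^ C < (tau (α * k + β * f k).toNat : ℝ)) ⊆ S0 ∪ (S1 ∪ (S2 ∪ (S3 ∪ S4))) := by
    intro m hm
    rw [mem_filter] at hm
    obtain ⟨hmx, k, p, hkm, hk1, hp, hpk, hApos, hbig⟩ := hm
    obtain ⟨hm1, hm2⟩ := mem_Icc.1 hmx
    rw [mem_union, mem_union, mem_union, mem_union]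
    by_contra hcon
    push Not at hcon
    obtain ⟨g0, g1, g2, g3, g4⟩ := hcon
    rw [hS0, mem_filter] at g0
    rw [hS1, mem_filter] at g1
    rw [hS2, mem_filter] at g2
    rw [hS3, mem_filter] at g3
    have hklarge : (x : ℝ) ^ δ₁ < k := by
      by_contra h
      push Not at h
      exact g0 ⟨hmx, k, p, hkm, hk1, hp, h⟩
    have hsp : (sp z m : ℝ) ≤ (x : ℝ) ^ δ₁ := by
      by_contra h
      push Not at h
      exact g3 ⟨hmx, h⟩
    -- a prime factor of k beyond z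
    have hm0 : m ≠ 0 := by omega
    obtain ⟨v, hv, hvk, hzv⟩ : ∃ v : ℕ, v.Prime ∧ v ∣ k ∧ z < v := by
      by_contra hno
      push Not at hno
      have hcop : Nat.Coprime k (rp z m) := by
        rw [Nat.coprime_iff_gcd_eq_one]
        by_contra hne
        obtain ⟨t, ht, htd⟩ := Nat.exists_prime_and_dvd hne
        have e1 := hno t ht (htd.trans (Nat.gcd_dvd_left _ _))
        have e2 := lt_of_dvd_rp ht (htd.trans (Nat.gcd_dvd_right _ _))
        omega
      have e1 : k ∣ sp z m * rp z m := by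
        rw [sp_mul_rp z m hm0, hkm]
        exact dvd_mul_right _ _
      have e2 : k ≤ sp z m := Nat.le_of_dvd (sp_pos z m) (hcop.dvd_of_dvd_mul_right e1)
      have e3 : (k : ℝ) ≤ sp z m := by exact_mod_cast e2
      linarith
    obtain ⟨k', hk'⟩ := hvk
    have hk'0 : 1 ≤ k' := by
      rcases Nat.eq_zero_or_pos k' with h | h
      · rw [h, mul_zero] at hk'
        omega
      · exact h
    have hvk' : ¬ v ∣ k' := by
      rintro ⟨j, hj⟩
      apply g1
      refine ⟨hmx, v, by omega, ?_⟩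
      rw [hkm, hk', hj]
      exact ⟨j * p, by ring⟩
    have hfv : f (k' * v) = f k' * f v := hf.mul k' v ((Nat.Prime.coprime_iff_not_dvd hv).2 hvk').symm
    have hfvv := hP v (by omega) hv
    have hAk : α * k + β * f k = A k' * v + B k' := by
      rw [hA, hB, hk', mul_comm v k', hfv]
      push_cast
      rw [hfvv]
      ring
    rw [hAk] at hApos hbig
    apply g4
    rw [hS4, mem_biUnion]
    have hmeq : m = k' * v * p := by rw [hkm, hk']; ring
    have hvpos : 0 < v := hv.pos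
    have hppos : 0 < p := hp.pos
    have hpx : p ≤ x := by
      calc p = 1 * p := (one_mul p).symm
        _ ≤ (k' * v) * p := Nat.mul_le_mul_right p (Nat.mul_pos hk'0 hvpos)
        _ = m := hmeq.symm
        _ ≤ x := hm2
    have hk'x : k' ≤ x := by
      calc k' = k' * 1 := (mul_one _).symm
        _ ≤ k' * (v * p) := Nat.mul_le_mul_left _ (Nat.mul_pos hvpos hppos)
        _ = m := by rw [hmeq]; ring
        _ ≤ x := hm2
    refine ⟨(p, k'), ?_, ?_⟩
    · rw [mem_product, mem_Icc, mem_Icc]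
      exact ⟨⟨hppos, hpx⟩, hk'0, hk'x⟩
    · rw [mem_image]
      refine ⟨v, ?_, hmeq.symm⟩
      rw [hV]
      simp only
      rw [mem_filter, mem_Icc]
      refine ⟨⟨hvpos, ?_⟩, ?_, hzv, hApos, hbig⟩
      · rw [Nat.le_div_iff_mul_le (Nat.mul_pos hppos hk'0)]
        calc v * (p * k') = k' * v * p := by ring
          _ ≤ x := by rw [← hmeq]; exact hm2
      · have e1 : Int.gcd (A k') (B k') ≤ (α * β * c).natAbs * Nat.gcd k' (f k') := by
          rw [hA, hB, Int.gcd_comm]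
          exact gcd_lin α β c hα hβ hc k' (f k') hk'0
        have e2 : (Int.gcd (A k') (B k') : ℝ) ≤ ((α * β * c).natAbs : ℝ) * Nat.gcd k' (f k') := by exact_mod_cast e1
        have e3 : (Nat.gcd k' (f k') : ℝ) ≤ L ^ Cg := by
          by_contra h
          push Not at h
          exact g2 ⟨hmx, k', hk'0, ⟨v * p, by rw [hmeq]; ring⟩, h⟩
        refine e2.trans ?_
        rw [pow_succ, mul_comm (L ^ Cg)]
        exact mul_le_mul (by linarith) e3 (Nat.cast_nonneg _) hL0.le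
  have h1 : (((Icc 1 x).filter (fun m => ∃ k p : ℕ, m = k * p ∧ 1 ≤ k ∧ p.Prime ∧ ¬ p ∣ k ∧ 0 < α * k + β * f k ∧
        L ^ C < (tau (α * k + β * f k).toNat : ℝ))).card : ℝ) ≤
      (S0.card : ℝ) + ((S1.card : ℝ) + ((S2.card : ℝ) + ((S3.card : ℝ) + S4.card))) := by
    have h2 := (card_le_card hsub).trans ((card_union_le _ _).trans (Nat.add_le_add_left ((card_union_le _ _).trans
      (Nat.add_le_add_left ((card_union_le _ _).trans (Nat.add_le_add_left (card_union_le _ _) _)) _)) _))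
    exact_mod_cast h2
  linarith

end Pool.Agent.U365.TAU
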