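import Pool.Agent.U365.TAU.C

set_option autoImplicit false

/-! Properties with few exceptions in the classes to the moduli with few divisors. The proofs of `perk_t`, `count_t` and
`main_t` follow `N733/AQ` (A, B, D; starting files), with the additional condition on the number of the divisors. -/

namespace Pool.Agent.U365.TAU

open Finset Classical Filter H359R2 Pool.Agent.N733.AQ Pool.Agent.N733.TG

/-- few members of the classes `a mod q`, `q ≤ X ^ (θ - ρ)`, are exceptional, if `q` has few divisors -/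
def EBD (θ : ℝ) (Good : ℕ → Prop) : Prop := ∀ ρ : ℝ, 0 < ρ → ∀ A T : ℕ, ∃ X₀ : ℝ, ∀ X : ℝ, X₀ ≤ X →
  ∀ q : ℕ, 1 ≤ q → (q : ℝ) ≤ X ^ (θ - ρ) → (tau q : ℝ) ≤ Real.log X ^ T →
    ∀ a : ℤ, (Int.gcd a q : ℝ) ≤ Real.log X ^ T → ∀ V : Finset ℕ,
    (∀ v ∈ V, 0 < (q : ℤ) * v + a ∧ (((q : ℤ) * v + a : ℤ) : ℝ) ≤ X ∧ ¬ Good ((q : ℤ) * v + a).toNat) →
      (V.card : ℝ) ≤ X / (q * Real.log X ^ A)

/-- the conditions on `k` -/
def KOKt (C : ℕ) (x : ℝ) (k : ℕ) (a b : ℤ) : Prop := KOK C x k a b ∧ (tau a.toNat : ℝ) ≤ Real.log x ^ C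

theorem perk_t (θ : ℝ) (hθ0 : 0 < θ) (hθ1 : θ < 1) (Good : ℕ → Prop) (hE : EBD θ Good) (ρ : ℝ) (hρ : 0 < ρ) (hρθ : ρ ≤ θ)
    (C E : ℕ) :
    ∃ x₀ : ℝ, 1 ≤ x₀ ∧ ∀ x : ℝ, x₀ ≤ x → ∀ k : ℕ, 1 ≤ k → (k : ℝ) ≤ x ^ (θ - ρ) → ∀ a b : ℤ, KOKt C x k a b →
      ∀ V : Finset ℕ, (∀ v ∈ V, (v : ℝ) ≤ x / k ∧ x ^ (1 - θ) ≤ v ∧
        ¬ (0 < a * v + b ∧ Good (a * v + b).toNat)) → (V.card : ℝ) ≤ x / k / Real.log x ^ E := by
  obtain ⟨δ, hδ⟩ : ∃ δ : ℝ, δ = min (ρ / 4) ((1 - θ) / 4) := ⟨_, rfl⟩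
  have hδ0 : 0 < δ := by rw [hδ]; exact lt_min (by linarith) (by linarith)
  have hδρ : δ ≤ ρ / 4 := by rw [hδ]; exact min_le_left _ _
  have hδθ : δ ≤ (1 - θ) / 4 := by rw [hδ]; exact min_le_right _ _
  obtain ⟨X₀, hX₀⟩ := hE (ρ / 2) (by linarith) (E + 1) (C + 1)
  obtain ⟨x1, hx1⟩ := eventually_atTop.1 (Pool.Agent.R460.GS.real_log (C + 1) hδ0 (2 ^ (E + 2) + 2 ^ (C + 1) + 2 + |X₀|))
  refine ⟨max x1 1, le_max_right _ _, fun x hx k hk hkx a b hab V hV => ?_⟩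
  obtain ⟨hL, hLp⟩ := hx1 x (le_trans (le_max_left _ _) hx)
  have hx1' : 1 ≤ x := le_trans (le_max_right _ _) hx
  have hx0 : 0 < x := by linarith
  obtain ⟨L, hLd⟩ : ∃ L, L = Real.log x := ⟨_, rfl⟩
  obtain ⟨⟨h1, h2, h3, h4⟩, h5⟩ := hab
  rw [← hLd] at hL hLp h1 h2 h3 h4 h5 ⊢
  have p1 : (0 : ℝ) < 2 ^ (E + 2) := by positivity
  have p2 : (0 : ℝ) < 2 ^ (C + 1) := by positivity
  have p3 : 0 ≤ |X₀| := abs_nonneg _
  have hL2 : 2 ≤ L := by linarith
  have hL0 : 0 < L := by linarith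
  have hL1 : 1 ≤ L := by linarith
  have hLE : (2 : ℝ) ^ (E + 2) ≤ L := by linarith
  have hLC : (2 : ℝ) ^ (C + 1) ≤ L := by linarith
  have hLX : |X₀| ≤ L := by linarith
  have hk0 : (0 : ℝ) < k := by exact_mod_cast hk
  -- the small power
  obtain ⟨u, hu⟩ : ∃ u : ℝ, u = x ^ δ := ⟨_, rfl⟩
  rw [← hu] at hLp
  have hu0 : 0 < u := by rw [hu]; positivity
  have hLCp : 0 < L ^ C := by positivity
  have hu1 : 1 ≤ u := le_trans (one_le_pow₀ hL1) hLp
  have hLCu : L ^ C * 2 ≤ u := by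
    calc L ^ C * 2 ≤ L ^ C * L := mul_le_mul_of_nonneg_left hL2 hLCp.le
      _ = L ^ (C + 1) := by ring
      _ ≤ u := hLp
  have hLCu' : L ^ C ≤ u := by linarith
  -- a as a natural number
  have ha0r : (0 : ℝ) < a := lt_of_lt_of_le (by positivity) h1
  have ha0 : 0 < a := by exact_mod_cast ha0r
  obtain ⟨q, hq⟩ : ∃ q : ℕ, (q : ℤ) = a := ⟨a.toNat, Int.toNat_of_nonneg ha0.le⟩
  have hqr : (q : ℝ) = a := by exact_mod_cast hq
  have hq1 : 1 ≤ q := by omega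
  have hq0 : (0 : ℝ) < q := by exact_mod_cast hq1
  obtain ⟨X, hX⟩ : ∃ X : ℝ, X = 2 * (q * (x / k)) := ⟨_, rfl⟩
  have hXlo : 2 * (x / L ^ C) ≤ X := by
    rw [hX, hqr]
    apply mul_le_mul_of_nonneg_left _ (by norm_num)
    calc x / L ^ C = (k : ℝ) / L ^ C * (x / k) := by field_simp
      _ ≤ a * (x / k) := mul_le_mul_of_nonneg_right h1 (by positivity)
  have hxu : x / u ≤ X := by
    have : x / u ≤ x / L ^ C := div_le_div_of_nonneg_left hx0.le hLCp hLCu'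
    have : 0 ≤ x / L ^ C := by positivity
    linarith
  have hxδ : x / u = x ^ (1 - δ) := by rw [hu, Real.rpow_sub hx0, Real.rpow_one]
  have hX0 : 0 < X := lt_of_lt_of_le (by positivity) hxu
  have hXup : X ≤ x ^ 2 := by
    rw [hX, hqr]
    have e1 : (a : ℝ) * (x / k) ≤ (k * L ^ C) * (x / k) := mul_le_mul_of_nonneg_right h2 (by positivity)
    have e2 : ((k : ℝ) * L ^ C) * (x / k) = L ^ C * x := by field_simp
    have e3 : u ≤ x := by
      rw [hu]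
      calc x ^ δ ≤ x ^ (1 : ℝ) := Real.rpow_le_rpow_of_exponent_le hx1' (by linarith)
        _ = x := Real.rpow_one x
    calc 2 * ((a : ℝ) * (x / k)) ≤ (L ^ C * 2) * x := by linarith
      _ ≤ u * x := mul_le_mul_of_nonneg_right hLCu hx0.le
      _ ≤ x * x := mul_le_mul_of_nonneg_right e3 hx0.le
      _ = x ^ 2 := by ring
  have hlogX1 : L / 2 ≤ Real.log X := by
    have e1 : Real.log (x ^ (1 - δ)) ≤ Real.log X := Real.log_le_log (by positivity) (by rw [← hxδ]; exact hxu)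
    rw [Real.log_rpow hx0, ← hLd] at e1
    nlinarith
  have hlogX2 : Real.log X ≤ 2 * L := by
    have e1 : Real.log X ≤ Real.log (x ^ 2) := Real.log_le_log hX0 hXup
    rw [Real.log_pow, ← hLd] at e1
    push_cast at e1
    exact e1
  have hXX : X₀ ≤ X := by
    have e1 : L ≤ u := by
      calc L = L ^ 1 := (pow_one L).symm
        _ ≤ L ^ (C + 1) := pow_le_pow_right₀ hL1 (by omega)
        _ ≤ u := hLp
    have e2 : u ≤ x / u := by
      rw [hxδ, hu]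
      exact Real.rpow_le_rpow_of_exponent_le hx1' (by linarith)
    linarith [le_abs_self X₀]
  -- the size of the modulus
  have hqX : (q : ℝ) ≤ X ^ (θ - ρ / 2) := by
    have e0 : 0 ≤ θ - ρ / 2 := by linarith
    have e1 : (q : ℝ) ≤ x ^ (θ - ρ) * u := by
      rw [hqr]
      calc (a : ℝ) ≤ k * L ^ C := h2
        _ ≤ x ^ (θ - ρ) * u := mul_le_mul hkx hLCu' hLCp.le (by positivity)
    have e2 : x ^ (θ - ρ) * u ≤ (x ^ (1 - δ)) ^ (θ - ρ / 2) := by
      rw [hu, ← Real.rpow_add hx0, ← Real.rpow_mul hx0.le]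
      apply Real.rpow_le_rpow_of_exponent_le hx1'
      nlinarith
    calc (q : ℝ) ≤ x ^ (θ - ρ) * u := e1
      _ ≤ (x ^ (1 - δ)) ^ (θ - ρ / 2) := e2
      _ ≤ X ^ (θ - ρ / 2) := Real.rpow_le_rpow (by positivity) (by rw [← hxδ]; exact hxu) e0
  have hgcd : (Int.gcd b q : ℝ) ≤ Real.log X ^ (C + 1) := by
    rw [hq]
    refine h4.trans ?_
    have e1 : (L / 2) ^ (C + 1) ≤ Real.log X ^ (C + 1) := pow_le_pow_left₀ (by positivity) hlogX1 _
    refine le_trans ?_ e1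
    rw [div_pow, le_div_iff₀ (by positivity)]
    calc L ^ C * 2 ^ (C + 1) ≤ L ^ C * L := mul_le_mul_of_nonneg_left hLC hLCp.le
      _ = L ^ (C + 1) := by ring
  have htau : (tau q : ℝ) ≤ Real.log X ^ (C + 1) := by
    have e0 : a.toNat = q := by omega
    rw [e0] at h5
    refine h5.trans ?_
    have e1 : (L / 2) ^ (C + 1) ≤ Real.log X ^ (C + 1) := pow_le_pow_left₀ (by positivity) hlogX1 _
    refine le_trans ?_ e1
    rw [div_pow, le_div_iff₀ (by positivity)]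
    calc L ^ C * 2 ^ (C + 1) ≤ L ^ C * L := mul_le_mul_of_nonneg_left hLC hLCp.le
      _ = L ^ (C + 1) := by ring
  -- the bound for b
  have hkL : (k : ℝ) * L ^ C ≤ x ^ (θ - ρ) * u := mul_le_mul hkx hLCu' hLCp.le (by positivity)
  have hbig : x ^ (θ - ρ) * u * (2 * u) ≤ x := by
    have e2 : 2 ≤ u := by
      have : 1 ≤ L ^ C := one_le_pow₀ hL1
      linarith
    calc x ^ (θ - ρ) * u * (2 * u) ≤ x ^ (θ - ρ) * u * (u * u) := by
          apply mul_le_mul_of_nonneg_left _ (by positivity)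
          exact mul_le_mul_of_nonneg_right e2 hu0.le
      _ = x ^ ((θ - ρ) + δ + δ + δ) := by
          rw [hu, Real.rpow_add hx0, Real.rpow_add hx0, Real.rpow_add hx0]
          ring
      _ ≤ x ^ (1 : ℝ) := Real.rpow_le_rpow_of_exponent_le hx1' (by linarith)
      _ = x := Real.rpow_one x
  have hbX : |(b : ℝ)| ≤ X / 2 := by
    calc |(b : ℝ)| ≤ k * L ^ C := h3
      _ ≤ x ^ (θ - ρ) * u := hkL
      _ ≤ x / u := by
          rw [le_div_iff₀ hu0]
          have : 0 ≤ x ^ (θ - ρ) * u * u := by positivity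
          nlinarith
      _ ≤ x / L ^ C := div_le_div_of_nonneg_left hx0.le hLCp hLCu'
      _ ≤ X / 2 := by linarith
  have hbv : ∀ v : ℝ, x ^ (1 - θ) ≤ v → |(b : ℝ)| < a * v := by
    intro v hv
    have e1 : (k : ℝ) * L ^ C * L ^ C < k * x ^ (1 - θ) := by
      have e2 : L ^ C * L ^ C < x ^ (1 - θ) := by
        calc L ^ C * L ^ C < u * u := by nlinarith
          _ = x ^ (δ + δ) := by rw [hu, Real.rpow_add hx0]
          _ ≤ x ^ (1 - θ) := Real.rpow_le_rpow_of_exponent_le hx1' (by linarith)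
      rw [mul_assoc]
      exact mul_lt_mul_of_pos_left e2 hk0
    have hvx : 0 < x ^ (1 - θ) := by positivity
    calc |(b : ℝ)| ≤ k * L ^ C := h3
      _ < k / L ^ C * x ^ (1 - θ) := by
          rw [div_mul_eq_mul_div, lt_div_iff₀ hLCp]
          exact e1
      _ ≤ a * v := mul_le_mul h1 hv hvx.le ha0r.le
  have hfin := hX₀ X hXX q hq1 hqX htau b hgcd V (by
    intro v hv
    obtain ⟨g1, g2, g3⟩ := hV v hv
    have g4 := hbv v g2
    have g5 : (0 : ℝ) < a * v + b := by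
      have := neg_abs_le (b : ℝ)
      linarith
    have g6 : 0 < a * v + b := by exact_mod_cast g5
    rw [hq]
    refine ⟨g6, ?_, fun hg => g3 ⟨g6, hg⟩⟩
    push_cast
    have g7 : (a : ℝ) * v ≤ q * (x / k) := by
      rw [hqr]
      exact mul_le_mul_of_nonneg_left g1 ha0r.le
    have g8 : q * (x / k) = X / 2 := by rw [hX]; ring
    have := le_abs_self (b : ℝ)
    linarith)
  refine hfin.trans ?_
  have e1 : (L / 2) ^ (E + 1) ≤ Real.log X ^ (E + 1) := pow_le_pow_left₀ (by positivity) hlogX1 _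
  calc X / (q * Real.log X ^ (E + 1)) ≤ X / (q * (L / 2) ^ (E + 1)) := by
        apply div_le_div_of_nonneg_left hX0.le (by positivity)
        exact mul_le_mul_of_nonneg_left e1 hq0.le
    _ = x / k * (2 ^ (E + 2) / L ^ (E + 1)) := by
        rw [hX, div_pow]
        field_simp
        ring
    _ ≤ x / k * (L / L ^ (E + 1)) := by
        apply mul_le_mul_of_nonneg_left _ (by positivity)
        exact div_le_div_of_nonneg_right hLE (by positivity)
    _ = x / k / L ^ E := by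
        rw [pow_succ]
        field_simp

/-- the integers `m = k p` with a large prime factor `p` and a good `k` -/
def AdmT (θ ρ : ℝ) (C : ℕ) (A B : ℕ → ℤ) (x : ℝ) (m : ℕ) : Prop :=
  ∃ k p : ℕ, m = k * p ∧ 1 ≤ k ∧ p.Prime ∧ ¬ p ∣ k ∧ (k : ℝ) ≤ x ^ (θ - ρ) ∧ x ^ (1 - θ) ≤ p ∧ KOKt C x k (A k) (B k)

theorem count_t (θ : ℝ) (hθ0 : 0 < θ) (hθ1 : θ < 1) (Good : ℕ → Prop) (hE : EBD θ Good) (ρ : ℝ) (hρ : 0 < ρ) (hρθ : ρ ≤ θ)
    (C E : ℕ) (g : ℕ → ℤ) (A B : ℕ → ℤ) (p₀ : ℕ)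
    (hg : ∀ k p : ℕ, 1 ≤ k → p.Prime → p₀ ≤ p → ¬ p ∣ k → g (k * p) = A k * p + B k) :
    ∃ x₀ : ℕ, ∀ x : ℕ, x₀ ≤ x →
      (((Icc 1 x).filter (fun m => AdmT θ ρ C A B x m ∧ ¬ (0 < g m ∧ Good (g m).toNat))).card : ℝ) ≤
        x / Real.log x ^ E := by
  obtain ⟨x1, hx11, hx1⟩ := perk_t θ hθ0 hθ1 Good hE ρ hρ hρθ C (E + 2)
  obtain ⟨x2, hx2⟩ := eventually_atTop.1 (Pool.Agent.R460.GS.real_log 1 (s := (1 - θ) / 2) (by linarith) 2)
  have ht := ((tendsto_rpow_atTop (show 0 < 1 - θ by linarith)).comp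
    (tendsto_natCast_atTop_atTop (R := ℝ))).eventually_ge_atTop (p₀ : ℝ)
  obtain ⟨x3, hx3⟩ := eventually_atTop.1 ht
  obtain ⟨n1, hn1⟩ := exists_nat_ge x1
  obtain ⟨n2, hn2⟩ := exists_nat_ge x2
  refine ⟨n1 + n2 + x3 + 1, fun x hx => ?_⟩
  have hxr1 : x1 ≤ (x : ℝ) := hn1.trans (by exact_mod_cast (by omega : n1 ≤ x))
  have hxr2 : x2 ≤ (x : ℝ) := hn2.trans (by exact_mod_cast (by omega : n2 ≤ x))
  have hp₀ : (p₀ : ℝ) ≤ (x : ℝ) ^ (1 - θ) := hx3 x (by omega)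
  obtain ⟨hL2, -⟩ := hx2 x hxr2
  have hx1' : 1 ≤ x := by omega
  have hxr : (1 : ℝ) ≤ x := by exact_mod_cast hx1'
  obtain ⟨L, hL⟩ : ∃ L, L = Real.log x := ⟨_, rfl⟩
  rw [← hL] at hL2 ⊢
  have hL0 : 0 < L := by linarith
  -- the sets for one k
  obtain ⟨V, hV⟩ : ∃ V : ℕ → Finset ℕ, V = fun k => (Icc 1 (x / k)).filter (fun v : ℕ =>
    (k : ℝ) ≤ (x : ℝ) ^ (θ - ρ) ∧ KOKt C x k (A k) (B k) ∧ (x : ℝ) ^ (1 - θ) ≤ v ∧
      ¬ (0 < A k * v + B k ∧ Good (A k * v + B k).toNat)) := ⟨_, rfl⟩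
  have hsub : (Icc 1 x).filter (fun m => AdmT θ ρ C A B x m ∧ ¬ (0 < g m ∧ Good (g m).toNat)) ⊆
      (Icc 1 x).biUnion (fun k => (V k).image (fun v => k * v)) := by
    intro m hm
    rw [mem_filter, mem_Icc] at hm
    obtain ⟨⟨hm1, hm2⟩, ⟨k, p, hkp, hk, hp, hpk, h1, h2, h3⟩, h4⟩ := hm
    have hpos : 0 < p := hp.pos
    have hkx : k ≤ x := by
      calc k = k * 1 := (mul_one k).symm
        _ ≤ k * p := Nat.mul_le_mul_left k hpos
        _ = m := hkp.symm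
        _ ≤ x := hm2
    rw [mem_biUnion]
    refine ⟨k, by rw [mem_Icc]; exact ⟨hk, hkx⟩, ?_⟩
    rw [mem_image]
    refine ⟨p, ?_, hkp.symm⟩
    have hpp : p₀ ≤ p := by exact_mod_cast hp₀.trans h2
    rw [hV, mem_filter, mem_Icc]
    refine ⟨⟨hpos, ?_⟩, h1, h3, h2, ?_⟩
    · rw [Nat.le_div_iff_mul_le (by omega), mul_comm, ← hkp]
      exact hm2
    · rw [← hg k p hk hp hpp hpk, ← hkp]
      exact h4
  have hVk : ∀ k ∈ Icc 1 x, ((V k).card : ℝ) ≤ x / k / L ^ (E + 2) := by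
    intro k hk
    rw [mem_Icc] at hk
    by_cases hc : (k : ℝ) ≤ (x : ℝ) ^ (θ - ρ) ∧ KOKt C x k (A k) (B k)
    · have h1 := hx1 x hxr1 k hk.1 hc.1 (A k) (B k) hc.2 (V k) (by
        intro v hv
        rw [hV, mem_filter, mem_Icc] at hv
        refine ⟨?_, hv.2.2.2.1, hv.2.2.2.2⟩
        calc (v : ℝ) ≤ ((x / k : ℕ) : ℝ) := by exact_mod_cast hv.1.2
          _ ≤ x / k := Nat.cast_div_le)
      rw [← hL] at h1
      exact h1
    · have h1 : V k = ∅ := by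
        rw [hV]
        apply filter_eq_empty_iff.2
        intro v _ hcon
        exact hc ⟨hcon.1, hcon.2.1⟩
      rw [h1, card_empty, Nat.cast_zero]
      positivity
  have h1 : (((Icc 1 x).filter (fun m => AdmT θ ρ C A B x m ∧ ¬ (0 < g m ∧ Good (g m).toNat))).card : ℝ) ≤
      ∑ k ∈ Icc 1 x, (x / k / L ^ (E + 2) : ℝ) := by
    calc (((Icc 1 x).filter (fun m => AdmT θ ρ C A B x m ∧ ¬ (0 < g m ∧ Good (g m).toNat))).card : ℝ) ≤
        (∑ k ∈ Icc 1 x, (V k).card : ℕ) := by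
          rw [Nat.cast_le]
          refine (card_le_card hsub).trans (card_biUnion_le.trans ?_)
          apply sum_le_sum
          intro k _
          exact card_image_le
      _ = ∑ k ∈ Icc 1 x, ((V k).card : ℝ) := by push_cast; rfl
      _ ≤ _ := sum_le_sum hVk
  refine h1.trans ?_
  have h2 : ∑ k ∈ Icc 1 x, (x / k / L ^ (E + 2) : ℝ) = x / L ^ (E + 2) * ∑ k ∈ Icc 1 x, (1 / k : ℝ) := by
    rw [mul_sum]
    apply sum_congr rfl
    intro k _
    ring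
  have h3 : ∑ k ∈ Icc 1 x, (1 / k : ℝ) ≤ 1 + L := by
    have := harmonic_le_one_add_log x
    unfold harmonic at this
    rw [hL]
    refine le_trans (le_of_eq ?_) this
    push_cast
    rw [show Icc 1 x = Ico 1 (x + 1) by
      ext t
      rw [mem_Icc, mem_Ico]
      omega, Finset.sum_Ico_eq_sum_range]
    apply sum_congr rfl
    intro i _
    push_cast
    rw [one_div, add_comm]
  rw [h2]
  calc x / L ^ (E + 2) * ∑ k ∈ Icc 1 x, (1 / k : ℝ) ≤ x / L ^ (E + 2) * (1 + L) :=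
        mul_le_mul_of_nonneg_left h3 (by positivity)
    _ ≤ x / L ^ (E + 2) * (L ^ 2) := by
        apply mul_le_mul_of_nonneg_left _ (by positivity)
        nlinarith
    _ = x / L ^ E := by
        rw [pow_add]
        field_simp

theorem main_t {f : ℕ → ℕ} {c : ℤ} (hf : TM f c) (hc : c ≠ 0) (α β : ℤ) (hα : α ≠ 0) (hβ : β ≠ 0)
    (θ : ℝ) (hθ0 : 0 < θ) (hθ1 : θ < 1) (Good : ℕ → Prop) (hE : EBD θ Good) (ρ : ℝ) (hρ : 0 < ρ) (hρθ : ρ ≤ θ) (C₀ : ℕ)
    (ε : ℝ) (hε : 0 < ε) : ∃ N₀ : ℕ, ∀ N : ℕ, N₀ ≤ N →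
      (((Icc 1 N).filter (fun m => LP (1 - θ + ρ) m ∧ (m : ℝ) / Real.log m ^ C₀ ≤ ((α * m + β * f m : ℤ) : ℝ) ∧
        ¬ Good (α * m + β * f m).toNat)).card : ℝ) ≤ ε * N := by
  obtain ⟨P, hP⟩ := hf.prime
  obtain ⟨C', hC'⟩ := hf.growth
  obtain ⟨Cg, xg, hg⟩ := gcd_few hf.sm hc (ε / 5) (by positivity)
  obtain ⟨Ct, xt, ht⟩ := tau_few hf hc α β hα hβ (ε / 5) (by positivity)
  obtain ⟨C, hC⟩ : ∃ C, C = 2 * C' + Cg + C₀ + Ct + 3 := ⟨_, rfl⟩
  obtain ⟨s, hs⟩ := exists_nat_gt (5 / ε)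
  have h5e : 0 < 5 / ε := by positivity
  have hs1 : 1 ≤ s := by
    have : (0 : ℝ) < s := by linarith
    exact_mod_cast this
  obtain ⟨A, hA⟩ : ∃ A : ℕ → ℤ, A = fun k : ℕ => α * k + β * f k := ⟨_, rfl⟩
  obtain ⟨B, hB⟩ : ∃ B : ℕ → ℤ, B = fun k : ℕ => β * c * f k := ⟨_, rfl⟩
  obtain ⟨xc, hxc⟩ := count_t θ hθ0 hθ1 Good hE ρ hρ hρθ C 1 (fun m : ℕ => α * m + β * f m) A B P (by
    intro k p hk hp hpP hpk
    have e1 : f (k * p) = f k * f p := hf.mul k p ((Nat.Prime.coprime_iff_not_dvd hp).2 hpk).symm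
    simp only [hA, hB]
    rw [e1]
    push_cast
    rw [hP p hpP hp]
    ring)
  obtain ⟨δ, hδ⟩ : ∃ δ : ℝ, δ = min ρ (1 - θ) := ⟨_, rfl⟩
  have hδ0 : 0 < δ := by rw [hδ]; exact lt_min hρ (by linarith)
  have hδρ : δ ≤ ρ := by rw [hδ]; exact min_le_left _ _
  have hδθ : δ ≤ 1 - θ := by rw [hδ]; exact min_le_right _ _
  obtain ⟨x1, hx1⟩ := eventually_atTop.1 (Pool.Agent.R460.GS.real_log (2 * C' + C₀ + 3) hδ0
    (5 / ε + |(α : ℝ)| + |(β : ℝ)| + |(β : ℝ)| * |(c : ℝ)| + ((α * β * c).natAbs : ℝ) + s + P + 2))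
  obtain ⟨n1, hn1⟩ := exists_nat_ge x1
  refine ⟨xg + xc + xt + n1 + 3, fun N hN => ?_⟩
  obtain ⟨hLb, hLp⟩ := hx1 N (hn1.trans (by exact_mod_cast (by omega : n1 ≤ N)))
  obtain ⟨L, hL⟩ : ∃ L, L = Real.log N := ⟨_, rfl⟩
  rw [← hL] at hLb hLp
  have q1 : 0 ≤ |(α : ℝ)| := abs_nonneg _
  have q2 : 0 ≤ |(β : ℝ)| := abs_nonneg _
  have q3 : 0 ≤ |(β : ℝ)| * |(c : ℝ)| := by positivity
  have q4 : (0 : ℝ) ≤ ((α * β * c).natAbs : ℝ) := Nat.cast_nonneg _
  have q5 : (0 : ℝ) ≤ s := Nat.cast_nonneg _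
  have q6 : (0 : ℝ) ≤ P := Nat.cast_nonneg _
  have hL2 : 2 ≤ L := by linarith
  have hLe : 5 / ε ≤ L := by linarith
  have hL1 : 1 ≤ L := by linarith
  have hL0 : 0 < L := by linarith
  have hLs : (s : ℝ) < L := by linarith
  have hN1 : (1 : ℝ) ≤ N := by exact_mod_cast (by omega : 1 ≤ N)
  have hN0 : (0 : ℝ) < N := by linarith
  obtain ⟨τ, hτ⟩ : ∃ τ, τ = 1 - θ + ρ := ⟨_, rfl⟩
  have hτ0 : 0 < τ := by rw [hτ]; linarith
  have hτ1 : τ ≤ 1 := by rw [hτ]; linarith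
  have hNδ : L ≤ (N : ℝ) ^ δ := by
    refine le_trans ?_ hLp
    calc L = L ^ 1 := (pow_one L).symm
      _ ≤ L ^ (2 * C' + C₀ + 3) := pow_le_pow_right₀ hL1 (by omega)
  have hNτ : (N : ℝ) ^ (1 - θ) ≤ ((N : ℝ) / L) ^ τ := by
    rw [Real.div_rpow hN0.le hL0.le, le_div_iff₀ (by positivity)]
    calc (N : ℝ) ^ (1 - θ) * L ^ τ ≤ (N : ℝ) ^ (1 - θ) * L := by
          apply mul_le_mul_of_nonneg_left _ (by positivity)
          calc L ^ τ ≤ L ^ (1 : ℝ) := Real.rpow_le_rpow_of_exponent_le hL1 hτ1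
            _ = L := Real.rpow_one L
      _ ≤ (N : ℝ) ^ (1 - θ) * (N : ℝ) ^ δ := mul_le_mul_of_nonneg_left hNδ (by positivity)
      _ = (N : ℝ) ^ (1 - θ + δ) := by rw [Real.rpow_add hN0]
      _ ≤ (N : ℝ) ^ τ := Real.rpow_le_rpow_of_exponent_le hN1 (by rw [hτ]; linarith)
  -- the exceptional sets
  obtain ⟨S0, hS0⟩ : ∃ S0 : Finset ℕ, S0 = Icc 1 ⌊(N : ℝ) / L⌋₊ := ⟨_, rfl⟩
  obtain ⟨S1, hS1⟩ : ∃ S1 : Finset ℕ, S1 = (Icc 1 N).filter (fun m => ∃ t : ℕ, s < t ∧ t ^ 2 ∣ m) := ⟨_, rfl⟩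
  obtain ⟨S2, hS2⟩ : ∃ S2 : Finset ℕ, S2 = (Icc 1 N).filter (fun m => ∃ k : ℕ, 1 ≤ k ∧ k ∣ m ∧
    L ^ Cg < (Nat.gcd k (f k) : ℝ)) := ⟨_, rfl⟩
  obtain ⟨S3, hS3⟩ : ∃ S3 : Finset ℕ, S3 = (Icc 1 N).filter (fun m => AdmT θ ρ C A B N m ∧
    ¬ (0 < (α * m + β * f m : ℤ) ∧ Good (α * m + β * f m).toNat)) := ⟨_, rfl⟩
  obtain ⟨S4, hS4⟩ : ∃ S4 : Finset ℕ, S4 = (Icc 1 N).filter (fun m => ∃ k p : ℕ, m = k * p ∧ 1 ≤ k ∧ p.Prime ∧
    ¬ p ∣ k ∧ 0 < α * k + β * f k ∧ L ^ Ct < (tau (α * k + β * f k).toNat : ℝ)) := ⟨_, rfl⟩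
  have hc4 : (S4.card : ℝ) ≤ ε / 5 * N := by
    rw [hS4, hL]
    exact ht N (by omega)
  have hc0 : (S0.card : ℝ) ≤ ε / 5 * N := by
    rw [hS0, Nat.card_Icc, Nat.add_sub_cancel]
    refine (Nat.floor_le (by positivity)).trans ?_
    rw [div_le_iff₀ hL0]
    rw [div_le_iff₀ hε] at hLe
    nlinarith
  have hc1 : (S1.card : ℝ) ≤ ε / 5 * N := by
    rw [hS1]
    refine (few_sq N s hs1).trans ?_
    have hs0 : (0 : ℝ) < s := by exact_mod_cast hs1
    rw [div_le_iff₀ hs0]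
    rw [div_lt_iff₀ hε] at hs
    nlinarith
  have hc2 : (S2.card : ℝ) ≤ ε / 5 * N := by
    rw [hS2, hL]
    exact hg N (by omega)
  have hc3 : (S3.card : ℝ) ≤ ε / 5 * N := by
    have h1 := hxc N (by omega)
    rw [pow_one, ← hL] at h1
    rw [hS3]
    refine le_trans (le_of_eq ?_) (h1.trans ?_)
    · congr 2
    · rw [div_le_iff₀ hL0]
      rw [div_le_iff₀ hε] at hLe
      nlinarith
  have hsub : (Icc 1 N).filter (fun m => LP (1 - θ + ρ) m ∧ (m : ℝ) / Real.log m ^ C₀ ≤ ((α * m + β * f m : ℤ) : ℝ) ∧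
        ¬ Good (α * m + β * f m).toNat) ⊆ S0 ∪ (S1 ∪ (S2 ∪ (S3 ∪ S4))) := by
    intro m hm
    rw [mem_filter] at hm
    obtain ⟨hmx, ⟨p, hp, hpm, hpτ⟩, hglow, hbad⟩ := hm
    obtain ⟨hm1, hm2⟩ := mem_Icc.1 hmx
    rw [mem_union, mem_union, mem_union, mem_union]
    by_contra hcon
    push Not at hcon
    obtain ⟨g0, g1, g2, g3, g4⟩ := hcon
    rw [hS0, mem_Icc] at g0
    rw [hS1, mem_filter] at g1
    rw [hS2, mem_filter] at g2
    rw [hS3, mem_filter] at g3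
    rw [hS4, mem_filter] at g4
    have hmL : (N : ℝ) / L < m := by
      by_contra h
      push Not at h
      exact g0 ⟨hm1, Nat.le_floor h⟩
    have hm0 : (0 : ℝ) < m := by exact_mod_cast hm1
    have hmN : (m : ℝ) ≤ N := by exact_mod_cast hm2
    rw [← hτ] at hpτ
    have hpN : (N : ℝ) ^ (1 - θ) ≤ p := by
      calc (N : ℝ) ^ (1 - θ) ≤ ((N : ℝ) / L) ^ τ := hNτ
        _ ≤ (m : ℝ) ^ τ := Real.rpow_le_rpow (by positivity) hmL.le hτ0.le
        _ ≤ p := hpτ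
    have hpδ : (N : ℝ) ^ δ ≤ p := (Real.rpow_le_rpow_of_exponent_le hN1 hδθ).trans hpN
    have hps : s < p := by
      have : (s : ℝ) < p := by linarith
      exact_mod_cast this
    have hp2 : ¬ p ^ 2 ∣ m := fun h => g1 ⟨hmx, p, hps, h⟩
    obtain ⟨k, hk⟩ := hpm
    have hk0 : 1 ≤ k := by
      rcases Nat.eq_zero_or_pos k with h | h
      · rw [h, mul_zero] at hk
        omega
      · exact h
    have hpk : ¬ p ∣ k := by
      rintro ⟨j, rfl⟩
      exact hp2 ⟨j, by rw [hk]; ring⟩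
    have hkm : m = k * p := by rw [hk, mul_comm]
    have hkr : (0 : ℝ) < k := by exact_mod_cast hk0
    have hp0 : (0 : ℝ) < p := by exact_mod_cast hp.pos
    have hkN : k ≤ N := by
      calc k = k * 1 := (mul_one k).symm
        _ ≤ k * p := Nat.mul_le_mul_left k hp.pos
        _ ≤ N := by rw [← hkm]; exact hm2
    have hklog : Real.log k ≤ L := by
      rw [hL]
      exact Real.log_le_log hkr (by exact_mod_cast hkN)
    have hklog0 : 0 ≤ Real.log k := Real.log_nonneg (by exact_mod_cast hk0)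
    have hfk : (f k : ℝ) ≤ k * L ^ (2 * C') := by
      refine (hC' k hk0).trans ?_
      apply mul_le_mul_of_nonneg_left _ hkr.le
      rw [pow_mul]
      apply pow_le_pow_left₀ (by linarith)
      nlinarith
    have hfk0 : (0 : ℝ) ≤ f k := Nat.cast_nonneg _
    have hkth : (k : ℝ) ≤ (N : ℝ) ^ (θ - ρ) := by
      have e1 : (k : ℝ) = m / p := by
        rw [hkm]
        push_cast
        field_simp
      rw [e1]
      calc (m : ℝ) / p ≤ m / (m : ℝ) ^ τ := div_le_div_of_nonneg_left hm0.le (by positivity) hpτ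
        _ = (m : ℝ) ^ (1 - τ) := by rw [Real.rpow_sub hm0, Real.rpow_one]
        _ ≤ (N : ℝ) ^ (1 - τ) := Real.rpow_le_rpow hm0.le hmN (by linarith)
        _ = (N : ℝ) ^ (θ - ρ) := by rw [hτ]; congr 1; ring
    -- powers of the logarithm
    have hpw : ∀ i j : ℕ, i ≤ j → L ^ i ≤ L ^ j := fun i j h => pow_le_pow_right₀ hL1 h
    have hBabs : |((B k : ℤ) : ℝ)| ≤ k * L ^ (2 * C' + 1) := by
      rw [hB]
      push_cast
      rw [abs_mul, abs_mul, abs_of_nonneg hfk0]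
      calc |(β : ℝ)| * |(c : ℝ)| * f k ≤ L * (k * L ^ (2 * C')) := by
            apply mul_le_mul _ hfk hfk0 hL0.le
            linarith
        _ = k * L ^ (2 * C' + 1) := by ring
    have hAabs : ((A k : ℤ) : ℝ) ≤ k * L ^ (2 * C' + 1) := by
      rw [hA]
      push_cast
      have e1 : (α : ℝ) * k ≤ |(α : ℝ)| * (k * L ^ (2 * C')) := by
        have e2 : (1 : ℝ) ≤ L ^ (2 * C') := one_le_pow₀ hL1
        calc (α : ℝ) * k ≤ |(α : ℝ)| * k := mul_le_mul_of_nonneg_right (le_abs_self _) hkr.le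
          _ ≤ |(α : ℝ)| * (k * L ^ (2 * C')) := by
            apply mul_le_mul_of_nonneg_left _ q1
            exact le_mul_of_one_le_right hkr.le e2
      have e3 : (β : ℝ) * f k ≤ |(β : ℝ)| * (k * L ^ (2 * C')) := by
        calc (β : ℝ) * f k ≤ |(β : ℝ)| * f k := mul_le_mul_of_nonneg_right (le_abs_self _) hfk0
          _ ≤ _ := mul_le_mul_of_nonneg_left hfk q2
      have e4 : 0 ≤ (k : ℝ) * L ^ (2 * C') := by positivity
      calc (α : ℝ) * k + β * f k ≤ (|(α : ℝ)| + |(β : ℝ)|) * (k * L ^ (2 * C')) := by linarith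
        _ ≤ L * (k * L ^ (2 * C')) := mul_le_mul_of_nonneg_right (by linarith) e4
        _ = k * L ^ (2 * C' + 1) := by ring
    have hgk : (Nat.gcd k (f k) : ℝ) ≤ L ^ Cg := by
      by_contra h
      push Not at h
      exact g2 ⟨hmx, k, hk0, ⟨p, hkm⟩, h⟩
    have hgcd : (Int.gcd (B k) (A k) : ℝ) ≤ L ^ (Cg + 1) := by
      have e1 : (Int.gcd (B k) (A k) : ℝ) ≤ ((α * β * c).natAbs : ℝ) * Nat.gcd k (f k) := by
        rw [hA, hB]
        exact_mod_cast gcd_lin α β c hα hβ hc k (f k) hk0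
      refine e1.trans ?_
      rw [pow_succ, mul_comm (L ^ Cg)]
      exact mul_le_mul (by linarith) hgk (Nat.cast_nonneg _) hL0.le
    have hpP : P ≤ p := by
      have : (P : ℝ) ≤ p := by linarith
      exact_mod_cast this
    -- the lower bound for A k
    have hAlow : (k : ℝ) / L ^ (C₀ + 1) ≤ A k := by
      · have e0 : (α * m + β * f m : ℤ) = A k * p + B k := by
          have e1 : f (k * p) = f k * f p := hf.mul k p ((Nat.Prime.coprime_iff_not_dvd hp).2 hpk).symm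
          rw [hA, hB, hkm, e1]
          push_cast
          rw [hP p hpP hp]
          ring
        rw [e0] at hglow
        push_cast at hglow
        have e2 : (m : ℝ) / L ^ C₀ ≤ m / Real.log m ^ C₀ := by
          have hlm : Real.log m ≤ L := by
            rw [hL]
            exact Real.log_le_log hm0 hmN
          have hm1' : (1 : ℝ) < m := by
            have h1 : (p : ℝ) ≤ m := by
              rw [hkm]
              push_cast
              have : (1 : ℝ) ≤ k := by exact_mod_cast hk0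
              nlinarith
            have h2 : (2 : ℝ) ≤ p := by exact_mod_cast hp.two_le
            linarith
          have hlm0 : 0 < Real.log m := Real.log_pos hm1'
          exact div_le_div_of_nonneg_left hm0.le (by positivity) (pow_le_pow_left₀ hlm0.le hlm C₀)
        have e3 : (m : ℝ) = k * p := by rw [hkm]; push_cast; ring
        have e4 : (B k : ℝ) ≤ k * L ^ (2 * C' + 1) := (le_abs_self _).trans hBabs
        have e5 : (k : ℝ) * L ^ (2 * C' + 1) ≤ k * p / (2 * L ^ C₀) := by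
          rw [le_div_iff₀ (by positivity)]
          calc (k : ℝ) * L ^ (2 * C' + 1) * (2 * L ^ C₀) = k * (2 * (L ^ (2 * C' + 1) * L ^ C₀)) := by ring
            _ ≤ k * (L * (L ^ (2 * C' + 1) * L ^ C₀)) := by
                apply mul_le_mul_of_nonneg_left _ hkr.le
                exact mul_le_mul_of_nonneg_right hL2 (by positivity)
            _ = k * L ^ (2 * C' + C₀ + 2) := by ring
            _ ≤ k * L ^ (2 * C' + C₀ + 3) := mul_le_mul_of_nonneg_left (hpw _ _ (by omega)) hkr.le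
            _ ≤ k * p := mul_le_mul_of_nonneg_left (hLp.trans hpδ) hkr.le
        have e6 : (k : ℝ) * p / (2 * L ^ C₀) ≤ A k * p := by
          have e7 : (k : ℝ) * p / L ^ C₀ = k * p / (2 * L ^ C₀) + k * p / (2 * L ^ C₀) := by
            field_simp
            ring
          rw [e3] at e2 hglow
          linarith
        have e8 : (k : ℝ) / (2 * L ^ C₀) ≤ A k := by
          have : (k : ℝ) / (2 * L ^ C₀) * p ≤ A k * p := by
            calc (k : ℝ) / (2 * L ^ C₀) * p = k * p / (2 * L ^ C₀) := by ring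
              _ ≤ _ := e6
          exact le_of_mul_le_mul_right this hp0
        refine le_trans ?_ e8
        apply div_le_div_of_nonneg_left hkr.le (by positivity)
        calc 2 * L ^ C₀ ≤ L * L ^ C₀ := mul_le_mul_of_nonneg_right hL2 (by positivity)
          _ = L ^ (C₀ + 1) := by ring
    have hApos : 0 < A k := by
      have : (0 : ℝ) < A k := lt_of_lt_of_le (by positivity) hAlow
      exact_mod_cast this
    have htau : (tau (A k).toNat : ℝ) ≤ L ^ Ct := by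
      by_contra h
      push Not at h
      rw [hA] at h hApos
      exact g4 ⟨hmx, k, p, hkm, hk0, hp, hpk, hApos, h⟩
    have hAdm : AdmT θ ρ C A B N m := by
      refine ⟨k, p, hkm, hk0, hp, hpk, hkth, hpN, ⟨?_, ?_, ?_, ?_⟩, ?_⟩
      · rw [← hL]
        refine le_trans ?_ hAlow
        exact div_le_div_of_nonneg_left hkr.le (by positivity) (hpw _ _ (by omega))
      · rw [← hL]
        exact hAabs.trans (mul_le_mul_of_nonneg_left (hpw _ _ (by omega)) hkr.le)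
      · rw [← hL]
        exact hBabs.trans (mul_le_mul_of_nonneg_left (hpw _ _ (by omega)) hkr.le)
      · rw [← hL]
        exact hgcd.trans (hpw _ _ (by omega))
      · rw [← hL]
        exact htau.trans (hpw _ _ (by omega))
    exact g3 ⟨hmx, hAdm, fun h => hbad h.2⟩
  have h1 : (((Icc 1 N).filter (fun m => LP (1 - θ + ρ) m ∧ (m : ℝ) / Real.log m ^ C₀ ≤
      ((α * m + β * f m : ℤ) : ℝ) ∧ ¬ Good (α * m + β * f m).toNat)).card : ℝ) ≤
      (S0.card : ℝ) + ((S1.card : ℝ) + ((S2.card : ℝ) + ((S3.card : ℝ) + S4.card))) := by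
    have h2 := (card_le_card hsub).trans ((card_union_le _ _).trans (Nat.add_le_add_left ((card_union_le _ _).trans
      (Nat.add_le_add_left ((card_union_le _ _).trans (Nat.add_le_add_left (card_union_le _ _) _)) _)) _))
    exact_mod_cast h2
  linarith

end Pool.Agent.U365.TAU
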