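import Pool.Agent.U365.TAU.D
import Pool.Agent.U365.AQG.B

set_option autoImplicit false

/-! From properties at a scale `X` to properties of the integer, and the form with almost all `m`. -/

namespace Pool.Agent.U365.TAU

open Finset Filter H359R2 Pool.Agent.U365.AQG

/-- the members of a class (copied from `N826/IT/V`) -/
lemma classcount (S : Finset ℕ) (q : ℕ) (hq : 1 ≤ q) (h : ℤ) (Y : ℝ) (hY : 0 ≤ Y)
    (hS : ∀ n ∈ S, (n : ℝ) ≤ Y ∧ (n : ℤ) ≡ h [ZMOD q]) : (S.card : ℝ) ≤ Y / q + 1 := by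
  have hq0 : (0 : ℝ) < q := by exact_mod_cast hq
  have hinj : Set.InjOn (fun n : ℕ => n / q) (S : Set ℕ) := by
    intro n hn m hm hnm
    simp only at hnm
    have h1 := (hS n hn).2
    have h2 := (hS m hm).2
    have h3 : (n : ℤ) ≡ m [ZMOD q] := h1.trans h2.symm
    have h4 : n % q = m % q := by
      have := Int.natCast_modEq_iff.1 h3
      exact this
    calc n = q * (n / q) + n % q := (Nat.div_add_mod n q).symm
      _ = q * (m / q) + m % q := by rw [hnm, h4]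
      _ = m := Nat.div_add_mod m q
  have hsub : S.image (fun n => n / q) ⊆ range (⌊Y / q⌋₊ + 1) := by
    intro t ht
    rw [mem_image] at ht
    obtain ⟨n, hn, rfl⟩ := ht
    rw [mem_range, Nat.lt_succ_iff]
    apply Nat.le_floor
    have h1 : ((n / q : ℕ) : ℝ) ≤ (n : ℝ) / q := Nat.cast_div_le
    exact h1.trans (div_le_div_of_nonneg_right (hS n hn).1 hq0.le)
  have h1 : S.card ≤ ⌊Y / q⌋₊ + 1 := by
    rw [← card_image_of_injOn hinj]
    exact (card_le_card hsub).trans (by rw [card_range])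
  have h2 : (⌊Y / q⌋₊ : ℝ) ≤ Y / q := Nat.floor_le (by positivity)
  have h3 : (S.card : ℝ) ≤ (⌊Y / q⌋₊ : ℝ) + 1 := by exact_mod_cast h1
  linarith

open Classical in
/-- from the properties at the scale `X` -/
theorem ebd_of (θ : ℝ) (hθ0 : 0 < θ) (hθ1 : θ < 1) (K : ℕ) (P : ℕ → ℕ → ℕ → Prop) (Good : ℕ → Prop)
    (H : ∀ ρ : ℝ, 0 < ρ → ∀ A C T : ℕ, ∃ X₀ : ℕ, ∀ X : ℕ, X₀ ≤ X → ∀ q : ℕ, 1 ≤ q → (q : ℝ) ≤ (X : ℝ) ^ (θ - ρ) →
      (tau q : ℝ) ≤ Real.log X ^ T → ∀ a : ℤ, (Int.gcd a q : ℝ) ≤ Real.log X ^ T →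
        (((Icc 1 X).filter (fun n : ℕ => (n : ℤ) ≡ a [ZMOD q] ∧ ¬ P C X n)).card : ℝ) ≤ X / (q * Real.log X ^ A))
    (h : ∀ A : ℕ, ∃ C X₁ : ℕ, ∀ X : ℕ, X₁ ≤ X → ∀ n : ℕ, 1 ≤ n → (X : ℝ) / Real.log X ^ A ≤ n →
      (n : ℝ) * Real.log n ^ K ≤ X → P C X n → Good n) : EBD θ Good := by
  intro ρ₀ hρ₀ A T
  obtain ⟨ρ, hρd⟩ : ∃ ρ : ℝ, ρ = min ρ₀ θ := ⟨_, rfl⟩
  have hρ : 0 < ρ := by rw [hρd]; exact lt_min hρ₀ hθ0
  have hρρ : ρ ≤ ρ₀ := by rw [hρd]; exact min_le_left _ _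
  have hρθ : ρ ≤ θ := by rw [hρd]; exact min_le_right _ _
  obtain ⟨C, X₁, hX₁⟩ := h (A + 2 * K + 4)
  obtain ⟨X₂, hX₂⟩ := H ρ hρ (A + 2 * K + 2) C T
  obtain ⟨x1, hx1⟩ := eventually_atTop.1 (Pool.Agent.R460.GS.real_log (A + K + 3) (s := (1 - θ)) (by linarith)
    (2 ^ (A + 2 * K + 4) + 8))
  refine ⟨max x1 (max (X₁ + X₂ + 1) 1), fun X hX q hq hqX₀ hτ a ha V hV => ?_⟩
  obtain ⟨hLb, hLp⟩ := hx1 X ((le_max_left _ _).trans hX)
  have hX1' : (X₁ : ℝ) + X₂ + 1 ≤ X := (le_max_left _ _).trans ((le_max_right _ _).trans hX)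
  have hX1 : 1 ≤ X := (le_max_right _ _).trans ((le_max_right _ _).trans hX)
  have hX0 : 0 < X := by linarith
  obtain ⟨L, hL⟩ : ∃ L, L = Real.log X := ⟨_, rfl⟩
  rw [← hL] at hLb hLp hτ ha ⊢
  have h2p : (0 : ℝ) < 2 ^ (A + 2 * K + 4) := by positivity
  have hL8 : 8 ≤ L := by linarith
  have hL1 : 1 ≤ L := by linarith
  have hL0 : 0 < L := by linarith
  have hL2 : 2 ^ (A + 2 * K + 4) ≤ L := by linarith
  have hq0 : (0 : ℝ) < q := by exact_mod_cast hq
  have hqX : (q : ℝ) ≤ X ^ (θ - ρ) := hqX₀.trans (Real.rpow_le_rpow_of_exponent_le hX1 (by linarith))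
  -- the scale
  obtain ⟨X', hX'⟩ : ∃ X' : ℕ, X' = ⌈X * L ^ K⌉₊ := ⟨_, rfl⟩
  have hX'1 : X * L ^ K ≤ X' := by rw [hX']; exact Nat.le_ceil _
  have hLK : 1 ≤ L ^ K := one_le_pow₀ hL1
  have hXX' : X ≤ X' := by nlinarith
  have hX'2 : (X' : ℝ) ≤ 2 * (X * L ^ K) := by
    have e1 : (X' : ℝ) ≤ X * L ^ K + 1 := by rw [hX']; exact (Nat.ceil_lt_add_one (by positivity)).le
    have e2 : 1 ≤ X * L ^ K := by nlinarith
    linarith
  have hlogX' : L ≤ Real.log X' := by rw [hL]; exact Real.log_le_log hX0 hXX'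
  have hlogX'0 : 0 < Real.log X' := by linarith
  have hlogX'2 : Real.log X' ≤ 2 * L := by
    have e1 : (X' : ℝ) ≤ X ^ 2 := by
      have e2 : 2 * L ^ K ≤ X := by
        calc 2 * L ^ K ≤ L * L ^ K := mul_le_mul_of_nonneg_right (by linarith) (by positivity)
          _ = L ^ (K + 1) := by ring
          _ ≤ L ^ (A + K + 3) := pow_le_pow_right₀ hL1 (by omega)
          _ ≤ X ^ (1 - θ) := hLp
          _ ≤ X ^ (1 : ℝ) := Real.rpow_le_rpow_of_exponent_le hX1 (by linarith)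
          _ = X := Real.rpow_one X
      calc (X' : ℝ) ≤ 2 * (X * L ^ K) := hX'2
        _ = (2 * L ^ K) * X := by ring
        _ ≤ X * X := mul_le_mul_of_nonneg_right e2 hX0.le
        _ = X ^ 2 := by ring
    have e3 := Real.log_le_log (by linarith) e1
    rw [Real.log_pow, ← hL] at e3
    push_cast at e3
    exact e3
  -- the two sets
  obtain ⟨S, hS⟩ : ∃ S : Finset ℕ, S = V.image (fun v : ℕ => ((q : ℤ) * v + a).toNat) := ⟨_, rfl⟩
  have hcard : S.card = V.card := by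
    rw [hS]
    apply card_image_of_injOn
    intro v hv w hw h
    have e1 := (hV v hv).1
    have e2 := (hV w hw).1
    simp only at h
    have e3 : (q : ℤ) * v + a = (q : ℤ) * w + a := by omega
    have e4 : (q : ℤ) * v = (q : ℤ) * w := by linarith
    have e5 : (v : ℤ) = w := mul_left_cancel₀ (by exact_mod_cast (by omega : q ≠ 0)) e4
    exact_mod_cast e5
  have hSm : ∀ n ∈ S, 1 ≤ n ∧ (n : ℝ) ≤ X ∧ (n : ℤ) ≡ a [ZMOD q] ∧ ¬ Good n := by
    intro n hn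
    rw [hS, mem_image] at hn
    obtain ⟨v, hv, rfl⟩ := hn
    obtain ⟨e1, e2, e3⟩ := hV v hv
    have e4 : ((((q : ℤ) * v + a).toNat : ℕ) : ℤ) = (q : ℤ) * v + a := Int.toNat_of_nonneg e1.le
    refine ⟨by omega, ?_, ?_, e3⟩
    · have e5 : ((((q : ℤ) * v + a).toNat : ℕ) : ℝ) = (((q : ℤ) * v + a : ℤ) : ℝ) := by
        rw [← Int.cast_natCast, e4]
      rw [e5]
      exact e2
    · rw [e4, Int.modEq_iff_dvd]
      exact ⟨-(v : ℤ), by ring⟩
  obtain ⟨S1, hS1⟩ : ∃ S1, S1 = S.filter (fun n : ℕ => (n : ℝ) ≤ X / L ^ (A + 2)) := ⟨_, rfl⟩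
  obtain ⟨S2, hS2⟩ : ∃ S2, S2 = S.filter (fun n : ℕ => ¬ (n : ℝ) ≤ X / L ^ (A + 2)) := ⟨_, rfl⟩
  have hsplit : S.card = S1.card + S2.card := by
    rw [hS1, hS2]
    exact (card_filter_add_card_filter_not _).symm
  have hc1 : (S1.card : ℝ) ≤ X / L ^ (A + 2) / q + 1 := by
    apply classcount S1 q hq a _ (by positivity)
    intro n hn
    rw [hS1, mem_filter] at hn
    exact ⟨hn.2, (hSm n hn.1).2.2.1⟩
  have hc2 : (S2.card : ℝ) ≤ X' / (q * Real.log X' ^ (A + 2 * K + 2)) := by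
    have hXr : X₂ ≤ X' := by
      have : (X₂ : ℝ) ≤ X' := by
        have : (0 : ℝ) ≤ X₁ := Nat.cast_nonneg _
        linarith
      exact_mod_cast this
    have hXr1 : X₁ ≤ X' := by
      have : (X₁ : ℝ) ≤ X' := by
        have : (0 : ℝ) ≤ X₂ := Nat.cast_nonneg _
        linarith
      exact_mod_cast this
    refine le_trans ?_ (hX₂ X' hXr q hq (hqX.trans (Real.rpow_le_rpow hX0.le hXX' (by linarith)))
      (hτ.trans (pow_le_pow_left₀ hL0.le hlogX' T)) a (ha.trans (pow_le_pow_left₀ hL0.le hlogX' T)))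
    rw [Nat.cast_le]
    apply card_le_card
    intro n hn
    rw [hS2, mem_filter, not_le] at hn
    obtain ⟨hnS, hnX⟩ := hn
    obtain ⟨e1, e2, e3, e4⟩ := hSm n hnS
    rw [mem_filter, mem_Icc]
    have hn1 : (1 : ℝ) ≤ n := by exact_mod_cast e1
    refine ⟨⟨e1, ?_⟩, e3, fun hP => e4 (hX₁ X' hXr1 n e1 ?_ ?_ hP)⟩
    · have : (n : ℝ) ≤ X' := e2.trans hXX'
      exact_mod_cast this
    · refine le_trans ?_ hnX.le
      rw [div_le_div_iff₀ (by positivity) (by positivity)]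
      have e5 : L ^ (A + 2 * K + 4) ≤ Real.log X' ^ (A + 2 * K + 4) := pow_le_pow_left₀ hL0.le hlogX' _
      calc (X' : ℝ) * L ^ (A + 2) ≤ 2 * (X * L ^ K) * L ^ (A + 2) := mul_le_mul_of_nonneg_right hX'2 (by positivity)
        _ = X * (2 * L ^ (A + K + 2)) := by ring
        _ ≤ X * (L * L ^ (A + K + 2)) := by
            apply mul_le_mul_of_nonneg_left _ hX0.le
            exact mul_le_mul_of_nonneg_right (by linarith) (by positivity)
        _ = X * L ^ (A + K + 3) := by ring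
        _ ≤ X * L ^ (A + 2 * K + 4) := by
            apply mul_le_mul_of_nonneg_left _ hX0.le
            exact pow_le_pow_right₀ hL1 (by omega)
        _ ≤ X * Real.log X' ^ (A + 2 * K + 4) := mul_le_mul_of_nonneg_left e5 hX0.le
    · have e6 : Real.log n ≤ L := by rw [hL]; exact Real.log_le_log (by linarith) e2
      have e7 : 0 ≤ Real.log n := Real.log_nonneg hn1
      calc (n : ℝ) * Real.log n ^ K ≤ X * L ^ K := by
            apply mul_le_mul e2 (pow_le_pow_left₀ e7 e6 K) (by positivity) hX0.le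
        _ ≤ X' := hX'1
  have hV' : (V.card : ℝ) = S1.card + S2.card := by
    rw [← hcard, hsplit]
    push_cast
    ring
  rw [hV']
  have hpos : 0 < X / (q * L ^ A) := by positivity
  have e1 : X / L ^ (A + 2) / q ≤ 1 / 4 * (X / (q * L ^ A)) := by
    have : X / L ^ (A + 2) / q = X / (q * L ^ A) * (1 / L ^ 2) := by
      rw [pow_add]
      field_simp
    rw [this, mul_comm]
    apply mul_le_mul_of_nonneg_right _ hpos.le
    apply one_div_le_one_div_of_le (by norm_num)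
    nlinarith
  have e2 : 1 ≤ 1 / 4 * (X / (q * L ^ A)) := by
    rw [← mul_div_assoc, le_div_iff₀ (by positivity), one_mul]
    have e3 : (q : ℝ) * L ^ (A + 1) ≤ X := by
      calc (q : ℝ) * L ^ (A + 1) ≤ X ^ (θ - ρ) * L ^ (A + K + 3) :=
            mul_le_mul hqX (pow_le_pow_right₀ hL1 (by omega)) (by positivity) (by positivity)
        _ ≤ X ^ (θ - ρ) * X ^ (1 - θ) := mul_le_mul_of_nonneg_left hLp (by positivity)
        _ = X ^ (θ - ρ + (1 - θ)) := by rw [Real.rpow_add hX0]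
        _ ≤ X ^ (1 : ℝ) := Real.rpow_le_rpow_of_exponent_le hX1 (by linarith)
        _ = X := Real.rpow_one X
    have e4 : (q : ℝ) * L ^ A * 4 ≤ q * L ^ (A + 1) := by
      rw [pow_succ, mul_assoc]
      apply mul_le_mul_of_nonneg_left _ hq0.le
      apply mul_le_mul_of_nonneg_left _ (by positivity)
      linarith
    linarith
  have e3 : (X' : ℝ) / (q * Real.log X' ^ (A + 2 * K + 2)) ≤ 1 / 4 * (X / (q * L ^ A)) := by
    calc (X' : ℝ) / (q * Real.log X' ^ (A + 2 * K + 2)) ≤ 2 * (X * L ^ K) / (q * L ^ (A + 2 * K + 2)) := by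
          apply div_le_div₀ (by positivity) hX'2 (by positivity)
          exact mul_le_mul_of_nonneg_left (pow_le_pow_left₀ hL0.le hlogX' _) hq0.le
      _ = X / (q * L ^ A) * (2 / (L ^ K * L ^ 2)) := by
          have : L ^ (A + 2 * K + 2) = L ^ A * (L ^ K * L ^ K) * L ^ 2 := by ring
          rw [this]
          field_simp
      _ ≤ X / (q * L ^ A) * (1 / 4) := by
          apply mul_le_mul_of_nonneg_left _ hpos.le
          rw [div_le_div_iff₀ (by positivity) (by norm_num)]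
          nlinarith
      _ = _ := by ring
  linarith

theorem general_t (θ : ℝ) (hθ0 : 0 < θ) (hθ1 : θ < 1) (Q : ℕ → Prop) (hE : EBD θ Q) (f : ℕ → ℕ)
    (c α β : ℤ) (C : ℕ) (ρ : ℝ) (hf : Moderate f c) (hc : c ≠ 0) (hα : α ≠ 0) (hβ : β ≠ 0) (hρ : 0 < ρ) :
    AlmostAll (fun m => LargePrime (1 - θ + ρ) m → (m : ℝ) / Real.log m ^ C ≤ ((α * m + β * f m : ℤ) : ℝ) →
      Q (α * m + β * f m).toNat) := by
  classical
  rw [almostAll_iff]
  intro δ hδ
  obtain ⟨N₀, h⟩ := main_t (tm_of hf) hc α β hα hβ θ hθ0 hθ1 Q hE (min ρ θ)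
    (lt_min hρ hθ0) (min_le_right _ _) C (δ / 2) (by positivity)
  obtain ⟨N₁, hN₁⟩ := exists_nat_gt (2 / δ)
  refine ⟨N₀ + N₁, fun N hN => ?_⟩
  have h1 := h N (by omega)
  have h2 : (1 : ℝ) ≤ δ / 2 * N := by
    have e1 : (N₁ : ℝ) ≤ N := by exact_mod_cast (by omega : N₁ ≤ N)
    have e2 : 2 / δ ≤ N := by linarith
    rw [div_le_iff₀ hδ] at e2
    linarith
  have h3 : ((Icc 1 N).filter (fun m : ℕ => ¬ (LargePrime (1 - θ + ρ) m → (m : ℝ) / Real.log m ^ C ≤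
      ((α * m + β * f m : ℤ) : ℝ) → Q (α * m + β * f m).toNat))) ⊆
      insert 1 ((Icc 1 N).filter (fun m => Pool.Agent.N733.AQ.LP (1 - θ + min ρ θ) m ∧
        (m : ℝ) / Real.log m ^ C ≤ ((α * m + β * f m : ℤ) : ℝ) ∧
        ¬ Q (α * m + β * f m).toNat)) := by
    intro m hm
    rw [mem_filter] at hm
    obtain ⟨hmx, hm2⟩ := hm
    push Not at hm2
    obtain ⟨⟨p, hp, hpm, hpτ⟩, g1, g3⟩ := hm2
    rw [mem_insert, mem_filter]
    have hm1 := (mem_Icc.1 hmx).1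
    rcases Nat.lt_or_ge 1 m with h4 | h4
    · right
      have hm1r : (1 : ℝ) < m := by exact_mod_cast h4
      refine ⟨hmx, ⟨p, hp, hpm, ?_⟩, g1, g3⟩
      refine le_trans ?_ hpτ
      apply Real.rpow_le_rpow_of_exponent_le hm1r.le
      linarith [min_le_left ρ θ]
    · left
      omega
  have h4 : (((Icc 1 N).filter (fun m : ℕ => ¬ (LargePrime (1 - θ + ρ) m → (m : ℝ) / Real.log m ^ C ≤
      ((α * m + β * f m : ℤ) : ℝ) → Q (α * m + β * f m).toNat))).card : ℝ) ≤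
      (((Icc 1 N).filter (fun m => Pool.Agent.N733.AQ.LP (1 - θ + min ρ θ) m ∧
        (m : ℝ) / Real.log m ^ C ≤ ((α * m + β * f m : ℤ) : ℝ) ∧
        ¬ Q (α * m + β * f m).toNat)).card : ℝ) + 1 := by
    exact_mod_cast (card_le_card h3).trans (card_insert_le _ _)
  have h5 : (((Icc 1 N).filter (fun m => Pool.Agent.N733.AQ.LP (1 - θ + min ρ θ) m ∧
        (m : ℝ) / Real.log m ^ C ≤ ((α * m + β * f m : ℤ) : ℝ) ∧
        ¬ Q (α * m + β * f m).toNat)).card : ℝ) ≤ δ / 2 * N :=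
    le_trans (Nat.cast_le.2 (card_mono' (fun m hm => hm))) h1
  refine le_trans (Nat.cast_le.2 (card_mono' (fun m hm => hm))) (h4.trans ((add_le_add_left h5 1).trans ?_))
  linarith

end Pool.Agent.U365.TAU
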