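import Pool.Agent.U365.TAU.E

set_option autoImplicit false

/-! The sum of the proper divisors and the cototient, for almost all `m`, and the density of the `m` with a large prime
factor. -/

namespace Pool.Agent.U365.TAU

open Finset Filter Topology H359R2 Pool.Agent.U365.AQG

theorem prod_small (ε : ℝ) (hε : 0 < ε) : ∃ z : ℕ, ∏ p ∈ (range z).filter Nat.Prime, (1 - 1 / (p : ℝ)) ≤ ε := by
  have h1 : Tendsto (fun n => ∑ i ∈ range n, Set.indicator {p : ℕ | p.Prime} (fun n : ℕ => (1 : ℝ) / n) i) atTop atTop := by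
    apply (not_summable_iff_tendsto_nat_atTop_of_nonneg (fun n => Set.indicator_nonneg (fun _ _ => by positivity) n)).1
    intro hs
    exact not_summable_one_div_on_primes hs
  obtain ⟨z, hz⟩ := (h1.eventually_ge_atTop (-Real.log ε)).exists
  refine ⟨z, ?_⟩
  have h2 : ∏ p ∈ (range z).filter Nat.Prime, (1 - 1 / (p : ℝ)) ≤
      ∏ p ∈ (range z).filter Nat.Prime, Real.exp (-(1 / (p : ℝ))) := by
    apply Finset.prod_le_prod
    · intro p hp
      rw [mem_filter] at hp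
      have : (1 : ℝ) ≤ p := by exact_mod_cast hp.2.one_lt.le
      have : 1 / (p : ℝ) ≤ 1 := by
        rw [div_le_one (by linarith)]
        exact this
      linarith
    · intro p _
      have := Real.add_one_le_exp (-(1 / (p : ℝ)))
      linarith
  refine h2.trans ?_
  rw [← Real.exp_sum, sum_neg_distrib]
  have h3 : ∑ i ∈ range z, Set.indicator {p : ℕ | p.Prime} (fun n : ℕ => (1 : ℝ) / n) i =
      ∑ p ∈ (range z).filter Nat.Prime, 1 / (p : ℝ) := by
    rw [sum_filter]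
    apply sum_congr rfl
    intro i _
    by_cases h : i.Prime
    · rw [Set.indicator_of_mem (by exact h), if_pos h]
    · rw [Set.indicator_of_notMem (by exact h), if_neg h]
  rw [h3] at hz
  calc Real.exp (-∑ p ∈ (range z).filter Nat.Prime, 1 / (p : ℝ)) ≤ Real.exp (Real.log ε) :=
        Real.exp_le_exp.2 (by linarith)
    _ = ε := Real.exp_log hε

/-- almost all integers have a small prime factor -/
theorem small_factor : AlmostAll (fun m => ∃ p : ℕ, p.Prime ∧ p ∣ m ∧ (p : ℝ) ≤ Real.log m) := by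
  classical
  rw [almostAll_iff]
  intro ε hε
  obtain ⟨z, hz⟩ := prod_small (ε / 4) (by positivity)
  obtain ⟨M, hM⟩ : ∃ M, M = ∏ p ∈ (range z).filter Nat.Prime, p := ⟨_, rfl⟩
  have hM0 : M ≠ 0 := by
    rw [hM, Finset.prod_ne_zero_iff]
    intro p hp
    rw [mem_filter] at hp
    exact hp.2.ne_zero
  have hφ : (Nat.totient M : ℝ) ≤ ε / 4 * M := by
    have h1 := Nat.totient_eq_mul_prod_factors M
    have h2 : M.primeFactors = (range z).filter Nat.Prime := by
      rw [hM]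
      exact Nat.primeFactors_prod (fun p hp => (mem_filter.1 hp).2)
    rw [h2] at h1
    have h3 : (Nat.totient M : ℝ) = M * ∏ p ∈ (range z).filter Nat.Prime, (1 - 1 / (p : ℝ)) := by
      have h4 : ((Nat.totient M : ℚ) : ℝ) = ((M * ∏ p ∈ (range z).filter Nat.Prime, (1 - (p : ℚ)⁻¹) : ℚ) : ℝ) := by rw [h1]
      push_cast at h4
      rw [h4]
      congr 1
      apply Finset.prod_congr rfl
      intro p _
      rw [one_div]
    rw [h3, mul_comm]
    exact mul_le_mul_of_nonneg_right hz (Nat.cast_nonneg _)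
  have hlog := (Real.tendsto_log_atTop.comp (tendsto_natCast_atTop_atTop (R := ℝ))).eventually_ge_atTop (z : ℝ)
  rw [eventually_atTop] at hlog
  obtain ⟨m₀, hm₀⟩ := hlog
  obtain ⟨N₁, hN₁⟩ := exists_nat_gt (4 * (m₀ + M : ℝ) / ε)
  refine ⟨N₁ + 1, fun N hN => ?_⟩
  have hM0' : (0 : ℝ) < M := by exact_mod_cast Nat.pos_of_ne_zero hM0
  have hsub : (Icc 1 N).filter (fun m : ℕ => ¬ ∃ p : ℕ, p.Prime ∧ p ∣ m ∧ (p : ℝ) ≤ Real.log m) ⊆
      Icc 1 m₀ ∪ (Ico 1 (1 + N)).filter (fun m => M.Coprime m) := by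
    intro m hm
    rw [mem_filter, mem_Icc] at hm
    obtain ⟨⟨hm1, hmN⟩, hno⟩ := hm
    rw [mem_union, mem_Icc, mem_filter, mem_Ico]
    by_cases h : m ≤ m₀
    · exact Or.inl ⟨hm1, h⟩
    · right
      refine ⟨⟨hm1, by omega⟩, ?_⟩
      rw [hM, Nat.coprime_prod_left_iff]
      intro p hp
      rw [mem_filter, mem_range] at hp
      rw [Nat.Prime.coprime_iff_not_dvd hp.2]
      intro hd
      apply hno
      refine ⟨p, hp.2, hd, ?_⟩
      have h1 : (p : ℝ) ≤ z := by exact_mod_cast hp.1.le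
      exact h1.trans (hm₀ m (by omega))
  have h1 := (card_le_card hsub).trans (card_union_le _ _)
  have h2 := Nat.Ico_filter_coprime_le 1 N hM0
  rw [Nat.card_Icc, Nat.add_sub_cancel] at h1
  have h3 : (((Icc 1 N).filter (fun m : ℕ => ¬ ∃ p : ℕ, p.Prime ∧ p ∣ m ∧ (p : ℝ) ≤ Real.log m)).card : ℝ) ≤
      m₀ + Nat.totient M * ((N / M : ℕ) + 1) := by
    have h4 := h1.trans (Nat.add_le_add_left h2 m₀)
    exact_mod_cast h4
  have hN' : 4 * (m₀ + M : ℝ) / ε ≤ N := by
    have : (N₁ : ℝ) ≤ N := by exact_mod_cast (by omega : N₁ ≤ N)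
    linarith
  rw [div_le_iff₀ hε] at hN'
  have hφM : (Nat.totient M : ℝ) ≤ M := by exact_mod_cast Nat.totient_le M
  have h5 : ((N / M : ℕ) : ℝ) ≤ N / M := Nat.cast_div_le
  have h6 : (Nat.totient M : ℝ) * ((N / M : ℕ) : ℝ) ≤ ε / 4 * N := by
    calc (Nat.totient M : ℝ) * ((N / M : ℕ) : ℝ) ≤ (ε / 4 * M) * (N / M) :=
          mul_le_mul hφ h5 (Nat.cast_nonneg _) (by positivity)
      _ = ε / 4 * N := by
          field_simp
  have hm0 : (0 : ℝ) ≤ m₀ := Nat.cast_nonneg _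
  have hN0 : (0 : ℝ) ≤ N := Nat.cast_nonneg _
  have h7 : 0 ≤ ε * N := by positivity
  linarith

theorem aliquot_large {m p : ℕ} (hm : 1 ≤ m) (hp : p.Prime) (hpm : p ∣ m) :
    m ≤ p * aliquot m ∧ m ≤ p * (m - Nat.totient m) := by
  obtain ⟨t, ht⟩ := hpm
  have hp2 := hp.two_le
  have ht0 : 1 ≤ t := by
    rcases Nat.eq_zero_or_pos t with h | h
    · rw [h, mul_zero] at ht
      omega
    · exact h
  have htm : t < m := by rw [ht]; nlinarith
  constructor
  · have h1 : t ∈ m.properDivisors := Nat.mem_properDivisors.2 ⟨⟨p, by rw [ht, mul_comm]⟩, htm⟩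
    have h2 : t ≤ aliquot m := single_le_sum (f := fun d : ℕ => d) (fun _ _ => Nat.zero_le _) h1
    calc m = p * t := ht
      _ ≤ p * aliquot m := Nat.mul_le_mul_left p h2
  · have h1 : t ≤ m - Nat.totient m := by
      have h2 : (range m).filter (fun a => m.Coprime a) ⊆ range m \ ((range t).image (fun j => p * j)) := by
        intro a ha
        rw [mem_filter] at ha
        rw [Finset.mem_sdiff, mem_image]
        refine ⟨ha.1, ?_⟩
        rintro ⟨j, _, rfl⟩
        have h3 : p ∣ Nat.gcd m (p * j) := Nat.dvd_gcd ⟨t, ht⟩ (dvd_mul_right _ _)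
        rw [Nat.Coprime.gcd_eq_one ha.2] at h3
        have := Nat.dvd_one.1 h3
        omega
      have h3 : (range t).image (fun j => p * j) ⊆ range m := by
        intro a ha
        rw [mem_image] at ha
        obtain ⟨j, hj, rfl⟩ := ha
        rw [mem_range] at hj ⊢
        rw [ht]
        exact Nat.mul_lt_mul_of_pos_left hj hp.pos
      have h4 := card_le_card h2
      rw [card_sdiff_of_subset h3, card_range, card_image_of_injective _ (fun a b h => Nat.eq_of_mul_eq_mul_left hp.pos h), card_range] at h4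
      have h5 : Nat.totient m = ((range m).filter (fun a => m.Coprime a)).card := rfl
      rw [h5]
      omega
    calc m = p * t := ht
      _ ≤ p * (m - Nat.totient m) := Nat.mul_le_mul_left p h1

theorem both_all (θ : ℝ) (hθ0 : 0 < θ) (hθ1 : θ < 1) (Q : ℕ → Prop) (hE : EBD θ Q) (n₀ : ℕ) (ρ : ℝ) (hρ : 0 < ρ) :
    AlmostAll (fun m => LargePrime (1 - θ + ρ) m →
      (n₀ ≤ aliquot m ∧ Q (aliquot m)) ∧ (n₀ ≤ m - Nat.totient m ∧ Q (m - Nat.totient m))) := by
  have h1 := general_t θ hθ0 hθ1 Q hE (fun m => ∑ d ∈ m.divisors, d) 1 (-1) 1 1 ρ moderate_sigma (by norm_num)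
    (by norm_num) (by norm_num) hρ
  have h2 := general_t θ hθ0 hθ1 Q hE Nat.totient (-1) 1 (-1) 1 ρ moderate_totient (by norm_num) (by norm_num)
    (by norm_num) hρ
  have hlog := ((Real.isLittleO_log_id_atTop.bound (show (0 : ℝ) < 1 / (n₀ + 1) by positivity)).and
    (eventually_ge_atTop (3 : ℝ)))
  obtain ⟨x₀, hx₀⟩ := eventually_atTop.1 hlog
  obtain ⟨m₀, hm₀⟩ := exists_nat_ge x₀
  refine almostAll_and h1 (almostAll_and h2 small_factor 0 (R := fun m => (LargePrime (1 - θ + ρ) m →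
      (m : ℝ) / Real.log m ^ 1 ≤ ((1 * m + -1 * Nat.totient m : ℤ) : ℝ) →
      Q (1 * (m : ℤ) + -1 * Nat.totient m).toNat) ∧ ∃ p : ℕ, p.Prime ∧ p ∣ m ∧ (p : ℝ) ≤ Real.log m)
      (fun m _ a b => ⟨a, b⟩)) (m₀ + 3) ?_
  rintro m hm g1 ⟨g2, p, hp, hpm, hpl⟩ hLP
  obtain ⟨k1, k2⟩ := hx₀ m (hm₀.trans (by exact_mod_cast (by omega : m₀ ≤ m)))
  have hm3 : 3 ≤ m := by exact_mod_cast k2
  have hm1 : (1 : ℝ) < m := by linarith
  have hm0 : (0 : ℝ) < m := by linarith
  have hl0 : 0 < Real.log m := Real.log_pos hm1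
  rw [Real.norm_of_nonneg hl0.le, id, Real.norm_of_nonneg hm0.le] at k1
  obtain ⟨a1, a2⟩ := aliquot_large (by omega) hp hpm
  have b1 : (m : ℝ) ≤ Real.log m * aliquot m := by
    calc (m : ℝ) ≤ p * aliquot m := by exact_mod_cast a1
      _ ≤ Real.log m * aliquot m := mul_le_mul_of_nonneg_right hpl (Nat.cast_nonneg _)
  have b2 : (m : ℝ) ≤ Real.log m * (m - Nat.totient m : ℕ) := by
    calc (m : ℝ) ≤ p * (m - Nat.totient m : ℕ) := by exact_mod_cast a2
      _ ≤ Real.log m * (m - Nat.totient m : ℕ) := mul_le_mul_of_nonneg_right hpl (Nat.cast_nonneg _)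
  have hbig : ∀ t : ℕ, (m : ℝ) ≤ Real.log m * t → n₀ ≤ t ∧ (m : ℝ) / Real.log m ^ 1 ≤ t := by
    intro t ht
    constructor
    · have e1 : (m : ℝ) * (n₀ + 1) ≤ m * t := by
        calc (m : ℝ) * (n₀ + 1) ≤ (Real.log m * t) * (n₀ + 1) := mul_le_mul_of_nonneg_right ht (by positivity)
          _ ≤ (1 / (n₀ + 1) * m * t) * (n₀ + 1) := by
              apply mul_le_mul_of_nonneg_right _ (by positivity)
              exact mul_le_mul_of_nonneg_right k1 (Nat.cast_nonneg _)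
          _ = m * t := by
              field_simp
      have e2 : ((n₀ : ℝ) + 1) ≤ t := le_of_mul_le_mul_left e1 hm0
      have e3 : n₀ + 1 ≤ t := by exact_mod_cast e2
      omega
    · rw [pow_one, div_le_iff₀ hl0, mul_comm]
      exact ht
  have hal : aliquot m + m = ∑ d ∈ m.divisors, d := (Nat.sum_divisors_eq_sum_properDivisors_add_self).symm
  have e1 : (-1 * (m : ℤ) + 1 * ((∑ d ∈ m.divisors, d : ℕ) : ℤ)) = (aliquot m : ℤ) := by
    rw [← hal]
    push_cast
    ring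
  have htm : Nat.totient m ≤ m := Nat.totient_le m
  have e2 : (1 * (m : ℤ) + -1 * (Nat.totient m : ℤ)) = ((m - Nat.totient m : ℕ) : ℤ) := by
    rw [Nat.cast_sub htm]
    ring
  obtain ⟨c1, c2⟩ := hbig _ b1
  obtain ⟨d1, d2⟩ := hbig _ b2
  refine ⟨⟨c1, ?_⟩, d1, ?_⟩
  · have := g1 hLP (by rw [e1, Int.cast_natCast]; exact c2)
    rwa [e1, Int.toNat_natCast] at this
  · have := g2 hLP (by rw [e2, Int.cast_natCast]; exact d2)
    rwa [e2, Int.toNat_natCast] at this

open Classical in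
theorem density_all (θ : ℝ) (hθ1 : θ < 1) (R : ℕ → Prop)
    (hR : ∀ η : ℝ, 0 < η → AlmostAll (fun m => LargePrime (1 - θ + η) m → R m)) (δ : ℝ) (hδ : δ < θ) :
    ∃ N₀ : ℕ, ∀ N : ℕ, N₀ ≤ N → δ * N ≤ (((Icc 1 N).filter (fun m => R m)).card : ℝ) := by
  obtain ⟨η, hη⟩ : ∃ η : ℝ, η = (θ - δ) / 4 := ⟨_, rfl⟩
  have hη0 : 0 < η := by rw [hη]; linarith
  have h1 := (almostAll_iff _).1 (hR η hη0) (η / 4) (by positivity)
  obtain ⟨N₁, hN₁⟩ := h1
  obtain ⟨M₀, hM₀⟩ := Pool.Agent.N733.AQ.few_smooth (1 - θ + η) η (by linarith) hη0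
  refine ⟨N₁ + M₀ + 1, fun N hN => ?_⟩
  have hb := hN₁ N (by omega)
  have hc := hM₀ N (by omega)
  have hsub : Icc 1 N ⊆
      ((Icc 1 N).filter (fun m => R m) ∪
        (Icc 1 N).filter (fun m => ¬ (LargePrime (1 - θ + η) m → R m))) ∪
        (Icc 1 N).filter (fun m : ℕ => ∀ p : ℕ, p.Prime → p ∣ m → (p : ℝ) ≤ ((2 * N : ℕ) : ℝ) ^ (1 - θ + η)) := by
    intro m hm
    rw [mem_union, mem_union, mem_filter, mem_filter, mem_filter]
    by_cases h2 : R m
    · exact Or.inl (Or.inl ⟨hm, h2⟩)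
    · by_cases h3 : LargePrime (1 - θ + η) m
      · exact Or.inl (Or.inr ⟨hm, fun h => h2 (h h3)⟩)
      · right
        refine ⟨hm, fun p hp hpt => ?_⟩
        by_contra h4
        push Not at h4
        apply h3
        refine ⟨p, hp, hpt, ?_⟩
        refine le_trans ?_ h4.le
        apply Real.rpow_le_rpow (by positivity) _ (by linarith)
        rw [mem_Icc] at hm
        exact_mod_cast (by omega : m ≤ 2 * N)
  have h2 := card_le_card hsub
  rw [Nat.card_Icc, Nat.add_sub_cancel] at h2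
  have h3 : (N : ℝ) ≤ ((((Icc 1 N).filter (fun m => R m)).card : ℝ) +
      (((Icc 1 N).filter (fun m => ¬ (LargePrime (1 - θ + η) m → R m))).card : ℝ)) +
      (((Icc 1 N).filter (fun m : ℕ => ∀ p : ℕ, p.Prime → p ∣ m → (p : ℝ) ≤ ((2 * N : ℕ) : ℝ) ^ (1 - θ + η))).card : ℝ) := by
    have h4 := h2.trans ((card_union_le _ _).trans (Nat.add_le_add_right (card_union_le _ _) _))
    exact_mod_cast h4
  have hb' : (((Icc 1 N).filter (fun m => ¬ (LargePrime (1 - θ + η) m → R m))).card : ℝ) ≤ η / 4 * N :=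
    le_trans (Nat.cast_le.2 (card_mono' (fun m hm => hm))) hb
  have hc' : (((Icc 1 N).filter (fun m : ℕ => ∀ p : ℕ, p.Prime → p ∣ m →
      (p : ℝ) ≤ ((2 * N : ℕ) : ℝ) ^ (1 - θ + η))).card : ℝ) ≤ (1 - θ + η + η) * N :=
    le_trans (Nat.cast_le.2 (card_mono' (fun m hm => hm))) hc
  have e3 : δ = θ - 4 * η := by rw [hη]; ring
  have hN0 : (0 : ℝ) ≤ N := Nat.cast_nonneg _
  have h5 : 0 ≤ η * N := by positivity
  rw [e3]
  linarith

end Pool.Agent.U365.TAU
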