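import Pool.Agent.U365.TAU.F

set_option autoImplicit false

/-! Dyadic scales, and two properties at the same time. -/

namespace Pool.Agent.U365.TAU

open Finset Filter H359R2 Pool.Agent.U365.AQG

theorem ebd_mono {θ : ℝ} {P Q : ℕ → Prop} (hP : EBD θ P) (h : ∀ n, P n → Q n) : EBD θ Q := by
  intro ρ hρ A T
  obtain ⟨X₀, hX₀⟩ := hP ρ hρ A T
  exact ⟨X₀, fun X hX q hq hqX hτ a ha V hV => hX₀ X hX q hq hqX hτ a ha V
    (fun v hv => ⟨(hV v hv).1, (hV v hv).2.1, fun hp => (hV v hv).2.2 (h _ hp)⟩)⟩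

theorem ebd_and {θ : ℝ} {P Q : ℕ → Prop} (hP : EBD θ P) (hQ : EBD θ Q) : EBD θ (fun n => P n ∧ Q n) := by
  classical
  intro ρ hρ A T
  obtain ⟨X₀, hX₀⟩ := hP ρ hρ (A + 1) T
  obtain ⟨X₁, hX₁⟩ := hQ ρ hρ (A + 1) T
  obtain ⟨X₂, hX₂⟩ := eventually_atTop.1 (Real.tendsto_log_atTop.eventually_ge_atTop (2 : ℝ))
  refine ⟨max X₀ (max X₁ (max X₂ 1)), fun X hX q hq hqX hτ a ha V hV => ?_⟩
  have h1 : X₀ ≤ X := (le_max_left _ _).trans hX
  have h2 : X₁ ≤ X := (le_max_left _ _).trans ((le_max_right _ _).trans hX)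
  have h3 : X₂ ≤ X := (le_max_left _ _).trans ((le_max_right _ _).trans ((le_max_right _ _).trans hX))
  have h4 : 1 ≤ X := (le_max_right _ _).trans ((le_max_right _ _).trans ((le_max_right _ _).trans hX))
  have hL := hX₂ X h3
  obtain ⟨V1, hV1⟩ : ∃ V1, V1 = V.filter (fun v : ℕ => ¬ P ((q : ℤ) * v + a).toNat) := ⟨_, rfl⟩
  obtain ⟨V2, hV2⟩ : ∃ V2, V2 = V.filter (fun v : ℕ => ¬ Q ((q : ℤ) * v + a).toNat) := ⟨_, rfl⟩
  have hsub : V ⊆ V1 ∪ V2 := by
    intro v hv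
    rw [mem_union, hV1, hV2, mem_filter, mem_filter]
    by_contra hcon
    push Not at hcon
    exact (hV v hv).2.2 ⟨hcon.1 hv, hcon.2 hv⟩
  have c1 := hX₀ X h1 q hq hqX hτ a ha V1 (fun v hv => by
    rw [hV1, mem_filter] at hv
    exact ⟨(hV v hv.1).1, (hV v hv.1).2.1, hv.2⟩)
  have c2 := hX₁ X h2 q hq hqX hτ a ha V2 (fun v hv => by
    rw [hV2, mem_filter] at hv
    exact ⟨(hV v hv.1).1, (hV v hv.1).2.1, hv.2⟩)
  have c3 : (V.card : ℝ) ≤ V1.card + V2.card := by exact_mod_cast (card_le_card hsub).trans (card_union_le _ _)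
  have hq0 : (0 : ℝ) < q := by exact_mod_cast hq
  have c4 : X / (q * Real.log X ^ (A + 1)) ≤ 1 / 2 * (X / (q * Real.log X ^ A)) := by
    have e : X / (q * Real.log X ^ (A + 1)) = X / (q * Real.log X ^ A) * (1 / Real.log X) := by
      rw [pow_succ]
      field_simp
    rw [e, mul_comm]
    apply mul_le_mul_of_nonneg_right _ (by positivity)
    exact one_div_le_one_div_of_le (by norm_num) hL
  linarith

open Classical in
/-- from the properties at the dyadic scales -/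
theorem ebd_of_dyadic (θ : ℝ) (hθ0 : 0 < θ) (hθ1 : θ < 1) (P : ℕ → ℕ → Prop) (Good : ℕ → Prop)
    (H : ∀ ρ : ℝ, 0 < ρ → ∀ A T : ℕ, ∃ X₀ : ℕ, ∀ X : ℕ, X₀ ≤ X → ∀ q : ℕ, 1 ≤ q → (q : ℝ) ≤ (X : ℝ) ^ (θ - ρ) →
      (tau q : ℝ) ≤ Real.log X ^ T → ∀ a : ℤ, (Int.gcd a q : ℝ) ≤ Real.log X ^ T →
        (((Icc 1 X).filter (fun n : ℕ => (n : ℤ) ≡ a [ZMOD q] ∧ ¬ P X n)).card : ℝ) ≤ X / (q * Real.log X ^ A))
    (h : ∃ X₁ : ℕ, ∀ X : ℕ, X₁ ≤ X → ∀ n : ℕ, n ≤ X → X ≤ 2 * n → P X n → Good n) : EBD θ Good := by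
  intro ρ₀ hρ₀ A T
  obtain ⟨ρ, hρd⟩ : ∃ ρ : ℝ, ρ = min ρ₀ θ := ⟨_, rfl⟩
  have hρ : 0 < ρ := by rw [hρd]; exact lt_min hρ₀ hθ0
  have hρρ : ρ ≤ ρ₀ := by rw [hρd]; exact min_le_left _ _
  have hρθ : ρ ≤ θ := by rw [hρd]; exact min_le_right _ _
  obtain ⟨X₁, hX₁⟩ := h
  obtain ⟨X₂, hX₂⟩ := H (ρ / 2) (by linarith) (A + 2) (T + 1)
  obtain ⟨δ, hδ⟩ : ∃ δ : ℝ, δ = min (ρ / 4) ((1 - θ) / 2) := ⟨_, rfl⟩
  have hδ0 : 0 < δ := by rw [hδ]; exact lt_min (by linarith) (by linarith)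
  have hδρ : δ ≤ ρ / 4 := by rw [hδ]; exact min_le_left _ _
  have hδθ : δ ≤ (1 - θ) / 2 := by rw [hδ]; exact min_le_right _ _
  obtain ⟨x1, hx1⟩ := eventually_atTop.1 (Pool.Agent.R460.GS.real_log (A + 4) (s := δ) hδ0
    (2 ^ (A + 8) + 2 ^ (T + 1) + 16 + X₁ + X₂))
  refine ⟨max x1 1, fun X hX q hq hqX₀ hτ a ha V hV => ?_⟩
  obtain ⟨hLb, hLp⟩ := hx1 X ((le_max_left _ _).trans hX)
  have hX1 : 1 ≤ X := (le_max_right _ _).trans hX
  have hX0 : 0 < X := by linarith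
  obtain ⟨L, hL⟩ : ∃ L, L = Real.log X := ⟨_, rfl⟩
  rw [← hL] at hLb hLp hτ ha ⊢
  have p1 : (0 : ℝ) < 2 ^ (A + 8) := by positivity
  have p2 : (0 : ℝ) < 2 ^ (T + 1) := by positivity
  have p3 : (0 : ℝ) ≤ X₁ := Nat.cast_nonneg _
  have p4 : (0 : ℝ) ≤ X₂ := Nat.cast_nonneg _
  have hL16 : 16 ≤ L := by linarith
  have hLA : 2 ^ (A + 8) ≤ L := by linarith
  have hLT : 2 ^ (T + 1) ≤ L := by linarith
  have hL1 : 1 ≤ L := by linarith
  have hL0 : 0 < L := by linarith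
  have hq0 : (0 : ℝ) < q := by exact_mod_cast hq
  -- the number of the scales
  obtain ⟨J, hJ⟩ : ∃ J : ℕ, J = Nat.clog 2 ⌈L ^ (A + 2)⌉₊ := ⟨_, rfl⟩
  have hLA2 : 1 ≤ L ^ (A + 2) := one_le_pow₀ hL1
  have hJ1 : L ^ (A + 2) ≤ 2 ^ J := by
    have e1 : ⌈L ^ (A + 2)⌉₊ ≤ 2 ^ J := by rw [hJ]; exact Nat.le_pow_clog (by norm_num) _
    exact (Nat.le_ceil _).trans (by exact_mod_cast e1)
  have hJ2 : (2 : ℝ) ^ J ≤ 4 * L ^ (A + 2) := by
    have e0 : 1 < ⌈L ^ (A + 2)⌉₊ := by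
      rw [Nat.lt_ceil, Nat.cast_one]
      exact one_lt_pow₀ (by linarith) (by omega)
    have e1 : 2 ^ (J - 1) < ⌈L ^ (A + 2)⌉₊ := by
      rw [hJ]
      exact Nat.pow_pred_clog_lt_self (by norm_num) e0
    have e2 : (2 : ℝ) ^ (J - 1) ≤ L ^ (A + 2) + 1 := by
      have : ((2 ^ (J - 1) : ℕ) : ℝ) < L ^ (A + 2) + 1 :=
        lt_of_lt_of_le (by exact_mod_cast e1) (Nat.ceil_lt_add_one (by positivity)).le
      push_cast at this
      exact this.le
    have e3 : 1 ≤ J := by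
      rw [hJ]
      exact Nat.clog_pos (by norm_num) e0
    have e4 : (2 : ℝ) ^ J = 2 * 2 ^ (J - 1) := by
      rw [← pow_succ', Nat.sub_add_cancel e3]
    rw [e4]
    linarith
  have hJL : (J : ℝ) ≤ L ^ (A + 2) := by
    have e1 : (J : ℝ) + 1 ≤ 2 ^ J := by
      have := Nat.lt_two_pow_self (n := J)
      exact_mod_cast this
    have e2 : J ≤ 4 * J := by omega
    rcases Nat.lt_or_ge J 4 with h4 | h4
    · have : (J : ℝ) ≤ 4 := by exact_mod_cast h4.le
      have e5 : L ≤ L ^ (A + 2) := le_self_pow₀ hL1 (by omega)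
      linarith
    · have e3 : 4 * J ≤ 2 ^ J := by
        have : ∀ n : ℕ, 4 ≤ n → 4 * n ≤ 2 ^ n := by
          intro n hn
          induction n, hn using Nat.le_induction with
          | base => norm_num
          | succ n hn ih =>
            rw [pow_succ]
            omega
        exact this J h4
      have e4 : (4 : ℝ) * J ≤ 2 ^ J := by exact_mod_cast e3
      linarith
  -- the scales are large
  have h2J : (2 : ℝ) ^ J ≤ X ^ δ := by
    refine hJ2.trans (le_trans ?_ hLp)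
    calc 4 * L ^ (A + 2) ≤ L * L ^ (A + 2) := mul_le_mul_of_nonneg_right (by linarith) (by positivity)
      _ = L ^ (A + 3) := by ring
      _ ≤ L ^ (A + 4) := pow_le_pow_right₀ hL1 (by omega)
  obtain ⟨Z, hZ⟩ : ∃ Z : ℕ → ℕ, Z = fun j => ⌊X / 2 ^ j⌋₊ := ⟨_, rfl⟩
  have hZlow : ∀ j, j ≤ J → X ^ (1 - δ) ≤ 2 * Z j ∧ (Z j : ℝ) ≤ X / 2 ^ j := by
    intro j hj
    have e1 : (2 : ℝ) ^ j ≤ 2 ^ J := pow_le_pow_right₀ (by norm_num) hj
    have e2 : X ^ (1 - δ) ≤ X / 2 ^ j := by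
      rw [le_div_iff₀ (by positivity)]
      calc X ^ (1 - δ) * 2 ^ j ≤ X ^ (1 - δ) * X ^ δ :=
            mul_le_mul_of_nonneg_left (e1.trans h2J) (by positivity)
        _ = X ^ (1 - δ + δ) := by rw [Real.rpow_add hX0]
        _ = X := by rw [sub_add_cancel, Real.rpow_one]
    have e3 : (1 : ℝ) ≤ X ^ (1 - δ) := Real.one_le_rpow hX1 (by linarith)
    have e4 : X / 2 ^ j < Z j + 1 := by rw [hZ]; exact Nat.lt_floor_add_one _
    have e5 : (1 : ℝ) ≤ Z j := by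
      have : 1 ≤ Z j := by
        rw [hZ]
        apply Nat.le_floor
        rw [Nat.cast_one]
        exact e3.trans e2
      exact_mod_cast this
    refine ⟨by linarith, ?_⟩
    rw [hZ]
    exact Nat.floor_le (by positivity)
  have hlogZ : ∀ j, j ≤ J → L / 2 ≤ Real.log (Z j) := by
    intro j hj
    obtain ⟨e1, -⟩ := hZlow j hj
    have e2 : X ^ (1 / 2 : ℝ) ≤ Z j := by
      have e3 : X ^ (1 / 2 : ℝ) * 2 ≤ X ^ (1 - δ) := by
        have e4 : (2 : ℝ) ≤ X ^ δ := by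
          calc (2 : ℝ) ≤ L := by linarith
            _ = L ^ 1 := (pow_one L).symm
            _ ≤ L ^ (A + 4) := pow_le_pow_right₀ hL1 (by omega)
            _ ≤ X ^ δ := hLp
        calc X ^ (1 / 2 : ℝ) * 2 ≤ X ^ (1 / 2 : ℝ) * X ^ δ := mul_le_mul_of_nonneg_left e4 (by positivity)
          _ = X ^ (1 / 2 + δ) := by rw [Real.rpow_add hX0]
          _ ≤ X ^ (1 - δ) := Real.rpow_le_rpow_of_exponent_le hX1 (by linarith)
      linarith
    have e5 := Real.log_le_log (by positivity) e2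
    rw [Real.log_rpow hX0, ← hL] at e5
    linarith
  -- the set
  obtain ⟨S, hS⟩ : ∃ S : Finset ℕ, S = V.image (fun v : ℕ => ((q : ℤ) * v + a).toNat) := ⟨_, rfl⟩
  have hcard : S.card = V.card := by
    rw [hS]
    apply card_image_of_injOn
    intro v hv w hw h
    have e1 := (hV v hv).1
    have e2 := (hV w hw).1
    simp only at h
    have e3 : (q : ℤ) * v + a = (q : ℤ) * w + a := by omega
    have e4 : (q : ℤ) * v = (q : ℤ) * w := by linarith
    have e5 : (v : ℤ) = w := mul_left_cancel₀ (by exact_mod_cast (by omega : q ≠ 0)) e4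
    exact_mod_cast e5
  have hSm : ∀ n ∈ S, 1 ≤ n ∧ (n : ℝ) ≤ X ∧ (n : ℤ) ≡ a [ZMOD q] ∧ ¬ Good n := by
    intro n hn
    rw [hS, mem_image] at hn
    obtain ⟨v, hv, rfl⟩ := hn
    obtain ⟨e1, e2, e3⟩ := hV v hv
    have e4 : ((((q : ℤ) * v + a).toNat : ℕ) : ℤ) = (q : ℤ) * v + a := Int.toNat_of_nonneg e1.le
    refine ⟨by omega, ?_, ?_, e3⟩
    · have e5 : ((((q : ℤ) * v + a).toNat : ℕ) : ℝ) = (((q : ℤ) * v + a : ℤ) : ℝ) := by
        rw [← Int.cast_natCast, e4]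
      rw [e5]
      exact e2
    · rw [e4, Int.modEq_iff_dvd]
      exact ⟨-(v : ℤ), by ring⟩
  obtain ⟨S1, hS1⟩ : ∃ S1, S1 = S.filter (fun n : ℕ => (n : ℝ) ≤ X / 2 ^ J) := ⟨_, rfl⟩
  obtain ⟨W, hW⟩ : ∃ W : ℕ → Finset ℕ, W = fun j => (Icc 1 (Z j)).filter (fun n : ℕ => (n : ℤ) ≡ a [ZMOD q] ∧
    ¬ P (Z j) n) := ⟨_, rfl⟩
  have hsub : S ⊆ S1 ∪ (range J).biUnion W := by
    intro n hn
    obtain ⟨e1, e2, e3, e4⟩ := hSm n hn
    rw [mem_union, hS1, mem_filter, mem_biUnion]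
    by_cases hsm : (n : ℝ) ≤ X / 2 ^ J
    · exact Or.inl ⟨hn, hsm⟩
    · right
      push Not at hsm
      -- the largest j with n ≤ X / 2 ^ j
      obtain ⟨j, hj⟩ : ∃ j : ℕ, j = Nat.findGreatest (fun i => (n : ℝ) ≤ X / 2 ^ i) J := ⟨_, rfl⟩
      have h0 : (n : ℝ) ≤ X / 2 ^ j := by
        have := Nat.findGreatest_spec (P := fun i => (n : ℝ) ≤ X / 2 ^ i) (m := 0) (n := J) (Nat.zero_le _)
          (by simpa using e2)
        rw [hj]
        exact this
      have hjJ : j < J := by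
        have h1 : j ≤ J := by rw [hj]; exact Nat.findGreatest_le J
        rcases h1.lt_or_eq with h | h
        · exact h
        · rw [h] at h0
          linarith
      have h1 : X / 2 ^ (j + 1) < n := by
        by_contra hcon
        push Not at hcon
        have := Nat.le_findGreatest (P := fun i => (n : ℝ) ≤ X / 2 ^ i) (m := j + 1) (n := J) (by omega) hcon
        omega
      refine ⟨j, mem_range.2 hjJ, ?_⟩
      rw [hW, mem_filter, mem_Icc]
      have hnZ : n ≤ Z j := by rw [hZ]; exact Nat.le_floor h0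
      refine ⟨⟨e1, hnZ⟩, e3, fun hP => e4 (hX₁ (Z j) ?_ n hnZ ?_ hP)⟩
      · have e5 : (X₁ : ℝ) ≤ Z j := by
          obtain ⟨k1, -⟩ := hZlow j hjJ.le
          have e6 : 2 * L ≤ X ^ (1 - δ) := by
            calc 2 * L ≤ L * L := mul_le_mul_of_nonneg_right (by linarith) hL0.le
              _ = L ^ 2 := by ring
              _ ≤ L ^ (A + 4) := pow_le_pow_right₀ hL1 (by omega)
              _ ≤ X ^ δ := hLp
              _ ≤ X ^ (1 - δ) := Real.rpow_le_rpow_of_exponent_le hX1 (by linarith)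
          linarith
        exact_mod_cast e5
      · have e5 : (Z j : ℝ) ≤ 2 * n := by
          refine (hZlow j hjJ.le).2.trans ?_
          have e6 : X / 2 ^ j = 2 * (X / 2 ^ (j + 1)) := by
            rw [pow_succ]
            field_simp
          linarith
        exact_mod_cast e5
  have hc1 : (S1.card : ℝ) ≤ X / 2 ^ J / q + 1 := by
    apply classcount S1 q hq a _ (by positivity)
    intro n hn
    rw [hS1, mem_filter] at hn
    exact ⟨hn.2, (hSm n hn.1).2.2.1⟩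
  have hWj : ∀ j ∈ range J, ((W j).card : ℝ) ≤ X / (q * (L / 2) ^ (A + 2)) * (1 / 2) ^ j := by
    intro j hj
    have hjJ := (mem_range.1 hj).le
    obtain ⟨k1, k2⟩ := hZlow j hjJ
    have k3 := hlogZ j hjJ
    have hX2 : X₂ ≤ Z j := by
      have e5 : (X₂ : ℝ) ≤ Z j := by
        have e6 : 2 * L ≤ X ^ (1 - δ) := by
          calc 2 * L ≤ L * L := mul_le_mul_of_nonneg_right (by linarith) hL0.le
            _ = L ^ 2 := by ring
            _ ≤ L ^ (A + 4) := pow_le_pow_right₀ hL1 (by omega)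
            _ ≤ X ^ δ := hLp
            _ ≤ X ^ (1 - δ) := Real.rpow_le_rpow_of_exponent_le hX1 (by linarith)
        linarith
      exact_mod_cast e5
    have hpow : L ^ T ≤ Real.log (Z j) ^ (T + 1) := by
      have e1 : (L / 2) ^ (T + 1) ≤ Real.log (Z j) ^ (T + 1) := pow_le_pow_left₀ (by positivity) k3 _
      refine le_trans ?_ e1
      rw [div_pow, le_div_iff₀ (by positivity), pow_succ L T]
      exact mul_le_mul_of_nonneg_left hLT (by positivity)
    have hqZ : (q : ℝ) ≤ (Z j : ℝ) ^ (θ - ρ / 2) := by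
      have e1 : (X : ℝ) ^ (1 - 2 * δ) ≤ Z j := by
        have e2 : X ^ (1 - 2 * δ) * 2 ≤ X ^ (1 - δ) := by
          have e4 : (2 : ℝ) ≤ X ^ δ := by
            calc (2 : ℝ) ≤ L := by linarith
              _ = L ^ 1 := (pow_one L).symm
              _ ≤ L ^ (A + 4) := pow_le_pow_right₀ hL1 (by omega)
              _ ≤ X ^ δ := hLp
          calc X ^ (1 - 2 * δ) * 2 ≤ X ^ (1 - 2 * δ) * X ^ δ := mul_le_mul_of_nonneg_left e4 (by positivity)
            _ = X ^ (1 - 2 * δ + δ) := by rw [Real.rpow_add hX0]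
            _ = X ^ (1 - δ) := by congr 1; ring
        linarith
      calc (q : ℝ) ≤ X ^ (θ - ρ₀) := hqX₀
        _ ≤ X ^ ((1 - 2 * δ) * (θ - ρ / 2)) := by
            apply Real.rpow_le_rpow_of_exponent_le hX1
            nlinarith
        _ = (X ^ (1 - 2 * δ)) ^ (θ - ρ / 2) := by rw [Real.rpow_mul hX0.le]
        _ ≤ (Z j : ℝ) ^ (θ - ρ / 2) := Real.rpow_le_rpow (by positivity) e1 (by linarith)
    have h1 := hX₂ (Z j) hX2 q hq hqZ (hτ.trans hpow) a (ha.trans hpow)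
    have h2 : (W j).card = ((Icc 1 (Z j)).filter (fun n : ℕ => (n : ℤ) ≡ a [ZMOD q] ∧ ¬ P (Z j) n)).card := by rw [hW]
    rw [h2]
    refine h1.trans ?_
    calc (Z j : ℝ) / (q * Real.log (Z j) ^ (A + 2)) ≤ (X / 2 ^ j) / (q * (L / 2) ^ (A + 2)) := by
          apply div_le_div₀ (by positivity) k2 (by positivity)
          exact mul_le_mul_of_nonneg_left (pow_le_pow_left₀ (by positivity) k3 _) hq0.le
      _ = X / (q * (L / 2) ^ (A + 2)) * (1 / 2) ^ j := by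
          rw [one_div, inv_pow]
          field_simp
  have hc2 : (((range J).biUnion W).card : ℝ) ≤ X / (q * (L / 2) ^ (A + 2)) * 2 := by
    have e1 : (((range J).biUnion W).card : ℝ) ≤ ∑ j ∈ range J, ((W j).card : ℝ) := by exact_mod_cast card_biUnion_le
    refine e1.trans ((sum_le_sum hWj).trans ?_)
    rw [← mul_sum]
    apply mul_le_mul_of_nonneg_left _ (by positivity)
    have := tsum_geometric_two
    have e2 := Summable.sum_le_tsum (range J) (fun i _ => by positivity) summable_geometric_two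
    linarith
  have hfin : (V.card : ℝ) ≤ (S1.card : ℝ) + (((range J).biUnion W).card : ℝ) := by
    rw [← hcard]
    exact_mod_cast (card_le_card hsub).trans (card_union_le _ _)
  have hpos : 0 < X / (q * L ^ A) := by positivity
  have f1 : X / 2 ^ J / q ≤ 1 / 4 * (X / (q * L ^ A)) := by
    calc X / 2 ^ J / q ≤ X / L ^ (A + 2) / q := by
          apply div_le_div_of_nonneg_right _ hq0.le
          exact div_le_div_of_nonneg_left hX0.le (by positivity) hJ1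
      _ = (1 / L ^ 2) * (X / (q * L ^ A)) := by
          rw [pow_add]
          field_simp
      _ ≤ 1 / 4 * (X / (q * L ^ A)) := by
          apply mul_le_mul_of_nonneg_right _ hpos.le
          apply one_div_le_one_div_of_le (by norm_num)
          nlinarith
  have f2 : 1 ≤ 1 / 4 * (X / (q * L ^ A)) := by
    rw [← mul_div_assoc, le_div_iff₀ (by positivity), one_mul]
    have e3 : (q : ℝ) * L ^ (A + 1) ≤ X := by
      calc (q : ℝ) * L ^ (A + 1) ≤ X ^ (θ - ρ₀) * X ^ δ :=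
            mul_le_mul hqX₀ ((pow_le_pow_right₀ hL1 (by omega)).trans hLp) (by positivity) (by positivity)
        _ = X ^ (θ - ρ₀ + δ) := by rw [Real.rpow_add hX0]
        _ ≤ X ^ (1 : ℝ) := Real.rpow_le_rpow_of_exponent_le hX1 (by linarith)
        _ = X := Real.rpow_one X
    have e4 : (q : ℝ) * L ^ A * 4 ≤ q * L ^ (A + 1) := by
      rw [pow_succ, mul_assoc]
      apply mul_le_mul_of_nonneg_left _ hq0.le
      apply mul_le_mul_of_nonneg_left _ (by positivity)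
      linarith
    linarith
  have f3 : X / (q * (L / 2) ^ (A + 2)) * 2 ≤ 1 / 4 * (X / (q * L ^ A)) := by
    have e1 : X / (q * (L / 2) ^ (A + 2)) * 2 = (2 ^ (A + 3) / L ^ 2) * (X / (q * L ^ A)) := by
      rw [div_pow, pow_add L A 2, pow_succ (2 : ℝ) (A + 2)]
      field_simp
    rw [e1]
    apply mul_le_mul_of_nonneg_right _ hpos.le
    rw [div_le_div_iff₀ (by positivity) (by norm_num)]
    have e2 : (2 : ℝ) ^ (A + 8) = 2 ^ (A + 3) * 32 := by
      rw [show A + 8 = A + 3 + 5 by ring, pow_add _ (A + 3) 5]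
      norm_num
    have e3 : (0 : ℝ) < 2 ^ (A + 3) := by positivity
    nlinarith
  linarith

end Pool.Agent.U365.TAU
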