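import Pool.Agent.U365.TAU.G
import Pool.Agent.N826.IT.G

set_option autoImplicit false

/-! All the linear combinations with small coefficients at the same time. -/

namespace Pool.Agent.U365.TAU

open Finset Filter Topology H359R2 Pool.Agent.U365.AQG

theorem ebd_forall_le {θ : ℝ} {Q : ℕ → ℕ → Prop} (h : ∀ i, EBD θ (Q i)) (j : ℕ) : EBD θ (fun n => ∀ i ≤ j, Q i n) := by
  induction j with
  | zero =>
    refine ebd_mono (h 0) (fun n hn i hi => ?_)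
    have : i = 0 := by omega
    rw [this]
    exact hn
  | succ j ih =>
    refine ebd_mono (ebd_and ih (h (j + 1))) (fun n hn i hi => ?_)
    rcases Nat.lt_or_ge i (j + 1) with h1 | h1
    · exact hn.1 i (by omega)
    · have : i = j + 1 := by omega
      rw [this]
      exact hn.2

theorem aa_iff (P : ℕ → Prop) : Pool.Agent.N826.IT.Orb.AlmostAll P ↔ AlmostAll P := Iff.rfl

theorem uniform (θ : ℝ) (hθ0 : 0 < θ) (hθ1 : θ < 1) (R : ℕ → ℕ → Prop) (hmono : ∀ i j n, i ≤ j → R j n → R i n)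
    (hE : ∀ j, EBD θ (R j)) {f : ℕ → ℕ} {c : ℤ} (hf : Moderate f c) (hc : c ≠ 0) :
    ∃ κ : ℕ → ℕ, Tendsto κ atTop atTop ∧ AlmostAll (fun m => LargePrime (1 - θ + 1 / ((κ m : ℝ) + 1)) m →
      ∀ α β : ℤ, α ≠ 0 → β ≠ 0 → |α| ≤ κ m → |β| ≤ κ m →
        (m : ℝ) / Real.log m ^ κ m ≤ ((α * m + β * f m : ℤ) : ℝ) → R (κ m) (α * m + β * f m).toNat) := by
  obtain ⟨m₀, hm₀⟩ := log_large
  have h := Pool.Agent.N826.IT.Orb.diagonal (P := fun j m => m₀ + 3 ≤ m → LargePrime (1 - θ + 1 / ((j : ℝ) + 1)) m →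
      ∀ α β : ℤ, α ≠ 0 → β ≠ 0 → |α| ≤ j → |β| ≤ j →
        (m : ℝ) / Real.log m ^ j ≤ ((α * m + β * f m : ℤ) : ℝ) → R j (α * m + β * f m).toNat) ?_ ?_
  · obtain ⟨κ, h1, h2⟩ := h
    rw [aa_iff] at h2
    refine ⟨κ, h1, almostAll_and h2 h2 (m₀ + 3) (fun m hm h3 _ => h3 hm)⟩
  · intro i j m hij hP hm hLP α β hα hβ hαi hβi hlow
    have hij' : (i : ℤ) ≤ j := by exact_mod_cast hij
    have hlog : 2 ≤ Real.log (m : ℝ) := hm₀ m (by omega)
    have hm0 : (0 : ℝ) < m := by exact_mod_cast (by omega : 0 < m)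
    have hm1 : (1 : ℝ) ≤ m := by exact_mod_cast (by omega : 1 ≤ m)
    refine hmono i j _ hij (hP hm ?_ α β hα hβ (hαi.trans hij') (hβi.trans hij') (le_trans ?_ hlow))
    · obtain ⟨p, hp, hpm, hpτ⟩ := hLP
      refine ⟨p, hp, hpm, le_trans (Real.rpow_le_rpow_of_exponent_le hm1 ?_) hpτ⟩
      have : (1 : ℝ) / ((j : ℝ) + 1) ≤ 1 / ((i : ℝ) + 1) := by
        apply one_div_le_one_div_of_le (by positivity)
        have : (i : ℝ) ≤ j := by exact_mod_cast hij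
        linarith
      linarith
    · apply div_le_div_of_nonneg_left hm0.le (by positivity)
      exact pow_le_pow_right₀ (by linarith) hij
  · intro j
    have hfin : ∀ z ∈ (Icc (-(j : ℤ)) j ×ˢ Icc (-(j : ℤ)) j), Pool.Agent.N826.IT.Orb.AlmostAll (fun m => z.1 ≠ 0 → z.2 ≠ 0 →
        LargePrime (1 - θ + 1 / ((j : ℝ) + 1)) m →
        (m : ℝ) / Real.log m ^ j ≤ ((z.1 * m + z.2 * f m : ℤ) : ℝ) → R j (z.1 * m + z.2 * f m).toNat) := by
      intro z _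
      by_cases h1 : z.1 = 0
      · exact Pool.Agent.N826.IT.Orb.almostAll_true (fun m h2 => absurd h1 h2)
      by_cases h2 : z.2 = 0
      · exact Pool.Agent.N826.IT.Orb.almostAll_true (fun m _ h3 => absurd h2 h3)
      rw [aa_iff]
      have h3 := general_t θ hθ0 hθ1 (R j) (hE j) f c z.1 z.2 j (1 / ((j : ℝ) + 1)) hf hc h1 h2 (by positivity)
      exact almostAll_and h3 h3 0 (fun m _ h4 _ _ _ => h4)
    refine Pool.Agent.N826.IT.Orb.almostAll_mono (Pool.Agent.N826.IT.Orb.almostAll_finset _ hfin)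
      (fun m h4 _ hLP α β hα hβ hαj hβj hlow => ?_)
    exact h4 (α, β) (by
      rw [mem_product, mem_Icc, mem_Icc]
      exact ⟨abs_le.1 hαj, abs_le.1 hβj⟩) hα hβ hLP hlow

/-- the sum of the proper divisors and the cototient -/
theorem uniform_both (θ : ℝ) (hθ0 : 0 < θ) (hθ1 : θ < 1) (R : ℕ → ℕ → Prop) (hmono : ∀ i j n, i ≤ j → R j n → R i n)
    (hE : ∀ j, EBD θ (R j)) :
    ∃ κ : ℕ → ℕ, Tendsto κ atTop atTop ∧ AlmostAll (fun m => LargePrime (1 - θ + 1 / ((κ m : ℝ) + 1)) m →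
      (κ m ≤ aliquot m ∧ R (κ m) (aliquot m)) ∧ (κ m ≤ m - Nat.totient m ∧ R (κ m) (m - Nat.totient m))) := by
  have h := Pool.Agent.N826.IT.Orb.diagonal (P := fun j m => 1 ≤ m → LargePrime (1 - θ + 1 / ((j : ℝ) + 1)) m →
      (j ≤ aliquot m ∧ R j (aliquot m)) ∧ (j ≤ m - Nat.totient m ∧ R j (m - Nat.totient m))) ?_ ?_
  · obtain ⟨κ, h1, h2⟩ := h
    rw [aa_iff] at h2
    exact ⟨κ, h1, almostAll_and h2 h2 1 (fun m hm h3 _ => h3 hm)⟩
  · intro i j m hij hP hm hLP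
    have hm1 : (1 : ℝ) ≤ m := by exact_mod_cast hm
    obtain ⟨⟨a1, a2⟩, b1, b2⟩ := hP hm (by
      obtain ⟨p, hp, hpm, hpτ⟩ := hLP
      refine ⟨p, hp, hpm, le_trans (Real.rpow_le_rpow_of_exponent_le hm1 ?_) hpτ⟩
      have : (1 : ℝ) / ((j : ℝ) + 1) ≤ 1 / ((i : ℝ) + 1) := by
        apply one_div_le_one_div_of_le (by positivity)
        have : (i : ℝ) ≤ j := by exact_mod_cast hij
        linarith
      linarith)
    exact ⟨⟨hij.trans a1, hmono i j _ hij a2⟩, hij.trans b1, hmono i j _ hij b2⟩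
  · intro j
    have h3 := both_all θ hθ0 hθ1 (R j) (hE j) j (1 / ((j : ℝ) + 1)) (by positivity)
    exact almostAll_and h3 h3 0 (fun m _ h4 _ _ => h4)

open Classical in
/-- the density, with a function `κ` -/
theorem density_uniform (θ : ℝ) (hθ1 : θ < 1) (R : ℕ → Prop) (κ : ℕ → ℕ) (hκ : Tendsto κ atTop atTop)
    (hR : AlmostAll (fun m => LargePrime (1 - θ + 1 / ((κ m : ℝ) + 1)) m → R m)) (δ : ℝ) (hδ : δ < θ) :
    ∃ N₀ : ℕ, ∀ N : ℕ, N₀ ≤ N → δ * N ≤ (((Icc 1 N).filter (fun m => R m)).card : ℝ) := by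
  refine density_all θ hθ1 R (fun η hη => ?_) δ hδ
  obtain ⟨j, hj⟩ := exists_nat_gt (1 / η)
  obtain ⟨m₀, hm₀⟩ := eventually_atTop.1 (hκ.eventually_ge_atTop j)
  refine almostAll_and hR hR (m₀ + 1) (fun m hm h1 _ hLP => h1 ?_)
  obtain ⟨p, hp, hpm, hpτ⟩ := hLP
  have hm1 : (1 : ℝ) ≤ m := by exact_mod_cast (by omega : 1 ≤ m)
  refine ⟨p, hp, hpm, le_trans (Real.rpow_le_rpow_of_exponent_le hm1 ?_) hpτ⟩
  have h2 : (j : ℝ) ≤ κ m := by exact_mod_cast hm₀ m (by omega)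
  have h3 : 1 / ((κ m : ℝ) + 1) ≤ η := by
    rw [div_le_iff₀ (by positivity)]
    rw [div_lt_iff₀ hη] at hj
    nlinarith
  linarith

end Pool.Agent.U365.TAU
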